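import Pool.Agent.TH609.KG.Bal2

set_option autoImplicit false

/-!
# Job 118 (MP_38461c_gt), part 7: the integral of the curvature of the balanced metric
-/

open scoped Manifold ContDiff Topology ComplexConjugate MatrixGroups UpperHalfPlane Matrix
open MeasureTheory Set Filter

namespace Pool.Agent.TH609.KG
open Pool.Agent.TH598.KG
open Pool.Agent.W549.CY (Cn dz dzbar)

/-! ### radial integration in the complex plane -/

theorem radial {f G : ℝ → ℝ} (hint : Integrable (fun a : ℂ => f (Complex.normSq a)))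
    (hG : ∀ ρ, 0 ≤ ρ → HasDerivAt G (f ρ) ρ) (hlim : Tendsto G atTop (𝓝 0)) :
    ∫ a : ℂ, f (Complex.normSq a) = -(Real.pi * G 0) := by
  have e : (fun a : ℂ => f (Complex.normSq a)) = fun a : ℂ => (fun r : ℝ => f (r ^ 2)) ‖a‖ := by
    funext a
    simp only [Complex.normSq_eq_norm_sq]
  rw [e] at hint ⊢
  have hint := (integrable_fun_norm_addHaar (volume : Measure ℂ) (f := fun r => f (r ^ 2))).1 hint
  have e2 := integral_fun_norm_addHaar (volume : Measure ℂ) (fun r => f (r ^ 2))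
  rw [e2]
  rw [Complex.finrank_real_complex] at hint ⊢
  have hvol : (volume : Measure ℂ).real (Metric.ball 0 1) = Real.pi := by
    rw [Measure.real, Complex.volume_ball]
    simp
  rw [hvol]
  simp only [Nat.add_one_sub_one, pow_one, smul_eq_mul] at hint ⊢
  have key : ∫ y in Ioi (0 : ℝ), y * f (y ^ 2) = 0 - G (0 ^ 2) / 2 := by
    refine integral_Ioi_of_hasDerivAt_of_tendsto' (f := fun y => G (y ^ 2) / 2) ?_ hint ?_
    · intro y hy
      have h1 := hG (y ^ 2) (by positivity)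
      have h2 := (HasDerivAt.comp_of_eq y h1 (hasDerivAt_pow 2 y) rfl).div_const 2
      refine h2.congr_deriv ?_
      norm_num
      ring
    · have h1 : Tendsto (fun y : ℝ => y ^ 2) atTop atTop := tendsto_pow_atTop two_ne_zero
      have h2 := (hlim.comp h1).div_const 2
      simpa using h2
  rw [key]
  norm_num
  ring

/-- the majorant -/
noncomputable def BB (a : ℂ) : ℝ := (1 + ‖a‖ ^ 2) ^ (-3 / 2 : ℝ)

theorem BB_pos (a : ℂ) : 0 < BB a := by unfold BB; positivity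

theorem BB_int : Integrable BB := by
  have h := integrable_rpow_neg_one_add_norm_sq (E := ℂ) (μ := volume) (r := 3) (by
    rw [Complex.finrank_real_complex]; norm_num)
  exact h

theorem BB_int' {f : ℂ → ℝ} (hf : Measurable f) (C : ℝ) (hb : ∀ a, |f a| ≤ C * BB a) :
    Integrable f :=
  (BB_int.const_mul C).mono' hf.aestronglyMeasurable (Eventually.of_forall hb)

/-- comparison with the majorant -/
theorem cube_bound {c X : ℝ} {a b : ℂ} (hc : 0 < c) (ha : c * (1 + ‖a‖ ^ 2) ≤ X)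
    (hb : c * (1 + ‖b‖ ^ 2) ≤ X) : (X ^ 3)⁻¹ ≤ (c ^ 3)⁻¹ * (BB a * BB b) := by
  have h1 : 0 < c * (1 + ‖a‖ ^ 2) := by positivity
  have h2 : 0 < c * (1 + ‖b‖ ^ 2) := by positivity
  have hX : 0 < X := lt_of_lt_of_le h1 ha
  have e1 : X ^ 3 = X ^ (3 / 2 : ℝ) * X ^ (3 / 2 : ℝ) := by
    rw [← Real.rpow_add hX, ← Real.rpow_natCast]
    norm_num
  have e2 : (c * (1 + ‖a‖ ^ 2)) ^ (3 / 2 : ℝ) * (c * (1 + ‖b‖ ^ 2)) ^ (3 / 2 : ℝ) ≤ X ^ 3 := by
    rw [e1]
    gcongr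
  have e3 : (c * (1 + ‖a‖ ^ 2)) ^ (3 / 2 : ℝ) * (c * (1 + ‖b‖ ^ 2)) ^ (3 / 2 : ℝ) =
      ((c ^ 3)⁻¹ * (BB a * BB b))⁻¹ := by
    rw [Real.mul_rpow hc.le (by positivity), Real.mul_rpow hc.le (by positivity)]
    unfold BB
    have e4 : ∀ x : ℝ, 0 < x → x ^ (3 / 2 : ℝ) = (x ^ (-3 / 2 : ℝ))⁻¹ := by
      intro x hx
      rw [← Real.rpow_neg hx.le]
      norm_num
    rw [e4 _ (by positivity : 0 < 1 + ‖a‖ ^ 2), e4 _ (by positivity : 0 < 1 + ‖b‖ ^ 2)]
    have e5 : c ^ (3 / 2 : ℝ) * c ^ (3 / 2 : ℝ) = c ^ 3 := by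
      rw [← Real.rpow_add hc, ← Real.rpow_natCast]
      norm_num
    rw [mul_inv, mul_inv, inv_inv, ← e5]
    ring
  rw [e3] at e2
  have h3 : 0 < (c ^ 3)⁻¹ * (BB a * BB b) := by
    have := BB_pos a
    have := BB_pos b
    positivity
  have h4 := inv_anti₀ (inv_pos.2 h3) e2
  rwa [inv_inv] at h4

/-! ### the radial antiderivatives -/

/-- the density `H(σ) / (y N³)` -/
noncomputable def KK (y ρ : ℝ) : ℝ :=
  (46 - 672 * (y * (y + ρ)⁻¹) + 2190 * (y * (y + ρ)⁻¹) ^ 2 - 3000 * (y * (y + ρ)⁻¹) ^ 3 +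
    3825 / 2 * (y * (y + ρ)⁻¹) ^ 4 - 945 / 2 * (y * (y + ρ)⁻¹) ^ 5) * (y * (y + ρ) ^ 3)⁻¹

noncomputable def QQ (y w : ℝ) : ℝ :=
  23 * y⁻¹ * w - 112 * w ^ 2 + 365 / 2 * y * w ^ 3 - 150 * y ^ 2 * w ^ 4 +
    255 / 4 * y ^ 3 * w ^ 5 - 45 / 4 * y ^ 4 * w ^ 6

noncomputable def RR (y w : ℝ) : ℝ :=
  -(23 * y⁻¹ * w ^ 2 - 224 * w ^ 3 + 1095 / 2 * y * w ^ 4 - 600 * y ^ 2 * w ^ 5 +
    1275 / 4 * y ^ 3 * w ^ 6 - 135 / 2 * y ^ 4 * w ^ 7)

theorem hasDerivAt_w {y ρ : ℝ} (h : y + ρ ≠ 0) :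
    HasDerivAt (fun ρ => (y + ρ)⁻¹) (-((y + ρ)⁻¹) ^ 2) ρ := by
  have h1 : HasDerivAt (fun ρ => y + ρ) 1 ρ := (hasDerivAt_id ρ).const_add y
  refine (h1.inv h).congr_deriv ?_
  field_simp

theorem deriv_QQ {y ρ : ℝ} (hy : 0 < y) (hρ : 0 ≤ ρ) :
    HasDerivAt (fun ρ => QQ y (y + ρ)⁻¹) (RR y (y + ρ)⁻¹) ρ := by
  have hX : y + ρ ≠ 0 := by positivity
  have h := hasDerivAt_w hX
  have h1 := ((((((h.const_mul (23 * y⁻¹)).sub ((h.pow 2).const_mul 112)).add
    ((h.pow 3).const_mul (365 / 2 * y))).sub ((h.pow 4).const_mul (150 * y ^ 2))).add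
    ((h.pow 5).const_mul (255 / 4 * y ^ 3))).sub ((h.pow 6).const_mul (45 / 4 * y ^ 4)))
  refine h1.congr_deriv ?_
  unfold RR
  generalize (y + ρ)⁻¹ = w
  norm_num
  ring

theorem deriv_RR {y ρ : ℝ} (hy : 0 < y) (hρ : 0 ≤ ρ) :
    HasDerivAt (fun ρ => RR y (y + ρ)⁻¹) (KK y ρ) ρ := by
  have hX : y + ρ ≠ 0 := by positivity
  have h := hasDerivAt_w hX
  have h1 := (((((((h.pow 2).const_mul (23 * y⁻¹)).sub ((h.pow 3).const_mul 224)).add
    ((h.pow 4).const_mul (1095 / 2 * y))).sub ((h.pow 5).const_mul (600 * y ^ 2))).add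
    ((h.pow 6).const_mul (1275 / 4 * y ^ 3))).sub ((h.pow 7).const_mul (135 / 2 * y ^ 4))).neg
  refine h1.congr_deriv ?_
  unfold KK
  norm_num
  field_simp
  ring

theorem tendsto_w (y : ℝ) : Tendsto (fun ρ : ℝ => (y + ρ)⁻¹) atTop (𝓝 0) :=
  tendsto_inv_atTop_zero.comp (tendsto_atTop_add_const_left _ y tendsto_id)

theorem lim_QQ (y : ℝ) : Tendsto (fun ρ => QQ y (y + ρ)⁻¹) atTop (𝓝 0) := by
  have h : Continuous (QQ y) := by unfold QQ; fun_prop
  have h1 := (h.tendsto 0).comp (tendsto_w y)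
  have h2 : QQ y 0 = 0 := by simp [QQ]
  rwa [h2] at h1

theorem lim_RR (y : ℝ) : Tendsto (fun ρ => RR y (y + ρ)⁻¹) atTop (𝓝 0) := by
  have h : Continuous (RR y) := by unfold RR; fun_prop
  have h1 := (h.tendsto 0).comp (tendsto_w y)
  have h2 : RR y 0 = 0 := by simp [RR]
  rwa [h2] at h1

theorem QQ_zero {y : ℝ} (hy : 0 < y) : QQ y (y + 0)⁻¹ = -4 / y ^ 2 := by
  unfold QQ
  rw [add_zero]
  field_simp
  ring

/-- bound of the density -/
theorem KK_bound {y ρ : ℝ} (hy : 0 < y) (hρ : 0 ≤ ρ) :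
    |KK y ρ| ≤ 10000 * (y⁻¹ * ((y + ρ) ^ 3)⁻¹) := by
  have hX : 0 < y + ρ := by positivity
  have h0 : 0 ≤ y * (y + ρ)⁻¹ := by positivity
  have h1 : y * (y + ρ)⁻¹ ≤ 1 := by
    rw [← div_eq_mul_inv, div_le_one hX]
    linarith
  unfold KK
  rw [abs_mul, mul_inv, abs_of_pos (by positivity : 0 < y⁻¹ * ((y + ρ) ^ 3)⁻¹)]
  refine mul_le_mul_of_nonneg_right ?_ (by positivity)
  generalize y * (y + ρ)⁻¹ = t at h0 h1
  have p2 : t ^ 2 ≤ 1 := pow_le_one₀ h0 h1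
  have p3 : t ^ 3 ≤ 1 := pow_le_one₀ h0 h1
  have p4 : t ^ 4 ≤ 1 := pow_le_one₀ h0 h1
  have p5 : t ^ 5 ≤ 1 := pow_le_one₀ h0 h1
  have q2 : 0 ≤ t ^ 2 := by positivity
  have q3 : 0 ≤ t ^ 3 := by positivity
  have q4 : 0 ≤ t ^ 4 := by positivity
  have q5 : 0 ≤ t ^ 5 := by positivity
  rw [abs_le]
  constructor <;> linarith

theorem RR_bound {y ρ : ℝ} (hy : 0 < y) (hρ : 0 ≤ ρ) :
    |RR y (y + ρ)⁻¹| ≤ 10000 * (y⁻¹ * ((y + ρ) ^ 2)⁻¹) := by
  have hX : 0 < y + ρ := by positivity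
  have h0 : 0 ≤ y * (y + ρ)⁻¹ := by positivity
  have h1 : y * (y + ρ)⁻¹ ≤ 1 := by
    rw [← div_eq_mul_inv, div_le_one hX]
    linarith
  have e : RR y (y + ρ)⁻¹ = -(23 - 224 * (y * (y + ρ)⁻¹) + 1095 / 2 * (y * (y + ρ)⁻¹) ^ 2 -
      600 * (y * (y + ρ)⁻¹) ^ 3 + 1275 / 4 * (y * (y + ρ)⁻¹) ^ 4 -
      135 / 2 * (y * (y + ρ)⁻¹) ^ 5) * (y⁻¹ * ((y + ρ) ^ 2)⁻¹) := by
    unfold RR
    field_simp
  rw [e, abs_mul, abs_of_pos (by positivity : 0 < y⁻¹ * ((y + ρ) ^ 2)⁻¹)]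
  refine mul_le_mul_of_nonneg_right ?_ (by positivity)
  generalize y * (y + ρ)⁻¹ = t at h0 h1
  have p2 : t ^ 2 ≤ 1 := pow_le_one₀ h0 h1
  have p3 : t ^ 3 ≤ 1 := pow_le_one₀ h0 h1
  have p4 : t ^ 4 ≤ 1 := pow_le_one₀ h0 h1
  have p5 : t ^ 5 ≤ 1 := pow_le_one₀ h0 h1
  have q2 : 0 ≤ t ^ 2 := by positivity
  have q3 : 0 ≤ t ^ 3 := by positivity
  have q4 : 0 ≤ t ^ 4 := by positivity
  have q5 : 0 ≤ t ^ 5 := by positivity
  rw [abs_le]
  constructor <;> linarith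

/-! ### the integral over the fibre -/

theorem normSq_meas : Measurable (fun a : ℂ => Complex.normSq a) :=
  Complex.continuous_normSq.measurable

theorem KK_meas (y : ℝ) : Measurable (KK y) := by
  unfold KK
  fun_prop

theorem KK_meas2 : Measurable (fun q : ℝ × ℝ => KK q.1 q.2) := by
  unfold KK
  fun_prop

theorem RR_meas (y : ℝ) : Measurable (fun ρ => RR y (y + ρ)⁻¹) := by
  unfold RR
  fun_prop

theorem KK_fib {y c : ℝ} (hc : 0 < c) (hc1 : c ≤ 1) (hcy : c ≤ y) (a b : ℂ) :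
    |KK y (Complex.normSq a + Complex.normSq b)| ≤ 10000 * c⁻¹ ^ 4 * (BB a * BB b) := by
  have hy : 0 < y := lt_of_lt_of_le hc hcy
  have ha0 := Complex.normSq_nonneg a
  have hb0 := Complex.normSq_nonneg b
  have h1 := KK_bound hy (add_nonneg ha0 hb0)
  have h2 : c * (1 + ‖a‖ ^ 2) ≤ y + (Complex.normSq a + Complex.normSq b) := by
    rw [← Complex.normSq_eq_norm_sq]
    nlinarith
  have h3 : c * (1 + ‖b‖ ^ 2) ≤ y + (Complex.normSq a + Complex.normSq b) := by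
    rw [← Complex.normSq_eq_norm_sq]
    nlinarith
  have h4 := cube_bound hc h2 h3
  have hA := BB_pos a
  have hB := BB_pos b
  refine h1.trans ?_
  have h5 : y⁻¹ ≤ c⁻¹ := inv_anti₀ hc hcy
  calc 10000 * (y⁻¹ * ((y + (Complex.normSq a + Complex.normSq b)) ^ 3)⁻¹)
      ≤ 10000 * (c⁻¹ * ((c ^ 3)⁻¹ * (BB a * BB b))) := by gcongr
    _ = 10000 * c⁻¹ ^ 4 * (BB a * BB b) := by
      rw [inv_pow]
      field_simp

theorem fib_int {y : ℝ} (hy : 0 < y) :
    ∫ q : ℂ × ℂ, KK y (Complex.normSq q.1 + Complex.normSq q.2) =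
      Real.pi ^ 2 * (-4 / y ^ 2) := by
  obtain ⟨c, hc, hc1, hcy⟩ : ∃ c : ℝ, 0 < c ∧ c ≤ 1 ∧ c ≤ y :=
    ⟨min 1 y, lt_min one_pos hy, min_le_left _ _, min_le_right _ _⟩
  have hm : Measurable (fun q : ℂ × ℂ => KK y (Complex.normSq q.1 + Complex.normSq q.2)) :=
    (KK_meas y).comp ((normSq_meas.comp measurable_fst).add (normSq_meas.comp measurable_snd))
  have hI : Integrable (fun q : ℂ × ℂ => KK y (Complex.normSq q.1 + Complex.normSq q.2)) := by
    have h1 : Integrable (fun q : ℂ × ℂ => 10000 * c⁻¹ ^ 4 * (BB q.1 * BB q.2)) :=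
      (BB_int.mul_prod BB_int).const_mul _
    exact h1.mono' hm.aestronglyMeasurable (Eventually.of_forall fun q => KK_fib hc hc1 hcy _ _)
  rw [show (volume : Measure (ℂ × ℂ)) = (volume : Measure ℂ).prod volume from rfl] at hI ⊢
  rw [integral_prod _ hI]
  have e1 : ∀ a : ℂ, ∫ b : ℂ, KK y (Complex.normSq a + Complex.normSq b) =
      -(Real.pi * RR y (y + Complex.normSq a)⁻¹) := by
    intro a
    have ha0 := Complex.normSq_nonneg a
    have h1 := radial (f := fun ρ => KK y (Complex.normSq a + ρ))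
      (G := fun ρ => RR y (y + (Complex.normSq a + ρ))⁻¹) ?_ ?_ ?_
    · rw [h1, add_zero]
    · refine BB_int' (((KK_meas y).comp (measurable_const.add normSq_meas))) 
        (10000 * c⁻¹ ^ 4 * BB a) fun b => ?_
      have := KK_fib hc hc1 hcy a b
      linarith
    · intro ρ hρ
      have h2 := deriv_RR hy (add_nonneg ha0 hρ)
      have h3 : HasDerivAt (fun ρ => Complex.normSq a + ρ) 1 ρ := (hasDerivAt_id ρ).const_add _
      exact (HasDerivAt.comp_of_eq ρ h2 h3 rfl).congr_deriv (mul_one _)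
    · exact (lim_RR y).comp (tendsto_atTop_add_const_left _ _ tendsto_id)
  simp only [e1]
  have h1 := radial (f := fun ρ => RR y (y + ρ)⁻¹) (G := fun ρ => QQ y (y + ρ)⁻¹) ?_ ?_ ?_
  · rw [integral_neg, integral_const_mul, h1, QQ_zero hy]
    ring
  · refine BB_int' ((RR_meas y).comp normSq_meas) (10000 * c⁻¹ ^ 3) fun a => ?_
    have ha0 := Complex.normSq_nonneg a
    refine (RR_bound hy ha0).trans ?_
    have h2 : c * (1 + ‖a‖ ^ 2) ≤ y + Complex.normSq a := by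
      rw [← Complex.normSq_eq_norm_sq]
      nlinarith
    have h3 : ((y + Complex.normSq a) ^ 2)⁻¹ ≤ c⁻¹ ^ 2 * BB a := by
      have h4 : 0 < c * (1 + ‖a‖ ^ 2) := by positivity
      have h5 : ((y + Complex.normSq a) ^ 2)⁻¹ ≤ ((c * (1 + ‖a‖ ^ 2)) ^ 2)⁻¹ := by gcongr
      refine h5.trans ?_
      rw [mul_pow, mul_inv, inv_pow]
      refine mul_le_mul_of_nonneg_left ?_ (by positivity)
      unfold BB
      rw [← Real.rpow_natCast, ← Real.rpow_neg (by positivity)]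
      apply Real.rpow_le_rpow_of_exponent_le
      · nlinarith [sq_nonneg ‖a‖]
      · norm_num
    have h6 : y⁻¹ ≤ c⁻¹ := inv_anti₀ hc hcy
    have hA := BB_pos a
    calc 10000 * (y⁻¹ * ((y + Complex.normSq a) ^ 2)⁻¹)
        ≤ 10000 * (c⁻¹ * (c⁻¹ ^ 2 * BB a)) := by gcongr
      _ = 10000 * c⁻¹ ^ 3 * BB a := by ring
  · intro ρ hρ
    exact deriv_QQ hy hρ
  · exact lim_QQ y

/-! ### the total integral -/

/-- coordinates -/
noncomputable def eqv : Cn 3 ≃ᵐ ℂ × (ℂ × ℂ) :=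
  (MeasurableEquiv.piFinSuccAbove (fun _ : Fin 3 => ℂ) 0).trans
    ((MeasurableEquiv.refl ℂ).prodCongr (MeasurableEquiv.finTwoArrow (α := ℂ)))

theorem eqv_apply (p : Cn 3) : eqv p = (p 0, (p 1, p 2)) := rfl

theorem eqv_mp : MeasurePreserving eqv (volume : Measure (Cn 3)) volume :=
  (MeasurePreserving.prod (MeasurePreserving.id volume) (volume_preserving_finTwoArrow ℂ)).comp
    (volume_preserving_piFinSuccAbove (fun _ : Fin 3 => ℂ) 0)

theorem DD_Gm_real {p : Cn 3} (hp : p ∈ UU) :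
    DD (rho0 p) (Gm p) (Gm p) = ((KK (p 0).im (nsq p) : ℝ) : ℂ) := by
  rw [DD_Gm' hp]
  have hy : 0 < (p 0).im := hp
  have hN := Nn_pos' hp
  have hs : sig p = 1 - (p 0).im * (Nn p)⁻¹ := by
    unfold sig
    have : nsq p = Nn p - (p 0).im := by unfold Nn; ring
    rw [this]
    field_simp
  have hK : KK (p 0).im (nsq p) = (9 / 2 * sig p * f1 (sig p) ^ 2 + 6 * f1 (sig p) * f2 (sig p) -
      2 * f1 (sig p) ^ 2) / ((p 0).im * Nn p ^ 3) := by
    have e : 9 / 2 * sig p * f1 (sig p) ^ 2 + 6 * f1 (sig p) * f2 (sig p) - 2 * f1 (sig p) ^ 2 =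
        9 / 2 * sig p * f1 (sig p) ^ 2 + 6 * (f1 (sig p) * f2 (sig p)) - 2 * f1 (sig p) ^ 2 := by
      ring
    rw [e, f1_f2, hs]
    unfold KK f1
    have : (p 0).im + nsq p = Nn p := rfl
    rw [this, div_eq_mul_inv]
    congr 1
    ring
  rw [hK]
  push_cast
  ring

theorem gmeas0 : Measurable (fun q : ℂ × (ℂ × ℂ) =>
      (q.1.im, Complex.normSq q.2.1 + Complex.normSq q.2.2)) := by
  have h := normSq_meas
  have h1 : Measurable (fun q : ℂ × (ℂ × ℂ) => Complex.normSq q.2.1) :=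
    h.comp (measurable_fst.comp measurable_snd)
  have h2 : Measurable (fun q : ℂ × (ℂ × ℂ) => Complex.normSq q.2.2) :=
    h.comp (measurable_snd.comp measurable_snd)
  exact (Complex.measurable_im.comp measurable_fst).prodMk (h1.add h2)

theorem gmeas1 : Measurable (fun q : ℂ × (ℂ × ℂ) =>
    KK q.1.im (Complex.normSq q.2.1 + Complex.normSq q.2.2)) := by
  have h2 := Measurable.comp (f := fun q : ℂ × (ℂ × ℂ) =>
      (q.1.im, Complex.normSq q.2.1 + Complex.normSq q.2.2)) KK_meas2 gmeas0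
  exact h2

theorem gmeas {φ : ℂ → ℝ} (hφ : Continuous φ) : Measurable (fun q : ℂ × (ℂ × ℂ) =>
    φ q.1 * KK q.1.im (Complex.normSq q.2.1 + Complex.normSq q.2.2)) := by
  have h1 : Measurable (fun q : ℂ × (ℂ × ℂ) => φ q.1) := hφ.measurable.comp measurable_fst
  exact h1.mul gmeas1

theorem integral_Gm' {φ : ℂ → ℝ} (hφ : Continuous φ) (hφc : HasCompactSupport φ)
    (hs : tsupport φ ⊆ {z | 0 < z.im}) :
    Phi φ Gm Gm = -4 * (Real.pi : ℂ) ^ 2 *
      ∫ z in {z : ℂ | 0 < z.im}, (φ z : ℂ) / ((z.im : ℂ) ^ 2) := by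
  have hzero : ∀ z : ℂ, ¬ (0 < z.im) → φ z = 0 := by
    intro z hz
    by_contra h
    exact hz (hs (subset_tsupport _ h))
  -- lower bound of the imaginary part
  obtain ⟨c, hc, hc1, hcy⟩ : ∃ c : ℝ, 0 < c ∧ c ≤ 1 ∧ ∀ z, φ z ≠ 0 → c ≤ z.im := by
    rcases (tsupport φ).eq_empty_or_nonempty with h | h
    · refine ⟨1, one_pos, le_rfl, fun z hz => ?_⟩
      have := subset_tsupport φ hz
      rw [h] at this
      exact absurd this (Set.notMem_empty z)
    · obtain ⟨z0, hz0, hmin⟩ := hφc.isCompact.exists_isMinOn h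
        (Complex.continuous_im.continuousOn (s := tsupport φ))
      refine ⟨min 1 z0.im, lt_min one_pos (hs hz0), min_le_left _ _, fun z hz => ?_⟩
      exact (min_le_right _ _).trans (hmin (subset_tsupport φ hz))
  set g : ℂ × (ℂ × ℂ) → ℝ := fun q =>
    φ q.1 * KK q.1.im (Complex.normSq q.2.1 + Complex.normSq q.2.2) with hg
  have hmeas : Measurable g := gmeas hφ
  have hgI : Integrable g := by
    have h1 : Integrable (fun q : ℂ × (ℂ × ℂ) => (10000 * c⁻¹ ^ 4 * |φ q.1|) *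
        (BB q.2.1 * BB q.2.2)) := by
      have a1 : Integrable (fun z : ℂ => 10000 * c⁻¹ ^ 4 * |φ z|) :=
        ((hφ.integrable_of_hasCompactSupport hφc).abs).const_mul _
      exact a1.mul_prod (BB_int.mul_prod BB_int)
    refine h1.mono' hmeas.aestronglyMeasurable (Eventually.of_forall fun q => ?_)
    rw [hg]
    simp only [norm_mul, Real.norm_eq_abs]
    by_cases h0 : φ q.1 = 0
    · rw [h0]; simp
    · have h2 := KK_fib hc hc1 (hcy q.1 h0) q.2.1 q.2.2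
      calc |φ q.1| * |KK q.1.im (Complex.normSq q.2.1 + Complex.normSq q.2.2)|
          ≤ |φ q.1| * (10000 * c⁻¹ ^ 4 * (BB q.2.1 * BB q.2.2)) := by gcongr
        _ = 10000 * c⁻¹ ^ 4 * |φ q.1| * (BB q.2.1 * BB q.2.2) := by ring
  have e1 : Phi φ Gm Gm = ((∫ p : Cn 3, g (eqv p) : ℝ) : ℂ) := by
    unfold Phi
    rw [← integral_complex_ofReal]
    have h1 : ∫ p in UU, (φ (p 0) : ℂ) * DD (rho0 p) (Gm p) (Gm p) =
        ∫ p in UU, ((g (eqv p) : ℝ) : ℂ) := by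
      refine setIntegral_congr_fun isOpen_UU.measurableSet fun p hp => ?_
      simp only [DD_Gm_real hp, eqv_apply, hg]
      push_cast
      rfl
    rw [h1]
    apply setIntegral_eq_integral_of_forall_compl_eq_zero
    intro p hp
    rw [eqv_apply, hg]
    simp only [hzero (p 0) hp, zero_mul, Complex.ofReal_zero]
  have e2 : ∫ p : Cn 3, g (eqv p) = ∫ q, g q := eqv_mp.integral_comp' g
  have e3 : ∫ q, g q = ∫ z : ℂ, φ z * ∫ q : ℂ × ℂ,
      KK z.im (Complex.normSq q.1 + Complex.normSq q.2) := by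
    rw [show (volume : Measure (ℂ × (ℂ × ℂ))) = (volume : Measure ℂ).prod volume from rfl]
      at hgI ⊢
    rw [integral_prod _ hgI]
    refine integral_congr_ae (Eventually.of_forall fun z => ?_)
    simp only [hg]
    rw [integral_const_mul]
  have e4 : ∫ z : ℂ, φ z * ∫ q : ℂ × ℂ, KK z.im (Complex.normSq q.1 + Complex.normSq q.2) =
      ∫ z in {z : ℂ | 0 < z.im}, φ z * (Real.pi ^ 2 * (-4 / z.im ^ 2)) := by
    rw [← setIntegral_eq_integral_of_forall_compl_eq_zero (s := {z : ℂ | 0 < z.im})]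
    · refine setIntegral_congr_fun (measurableSet_lt measurable_const Complex.measurable_im)
        fun z hz => ?_
      simp only [fib_int (show 0 < z.im from hz)]
    · intro z hz
      rw [hzero z hz, zero_mul]
  rw [e1, e2, e3, e4, ← integral_complex_ofReal, ← integral_const_mul]
  refine setIntegral_congr_fun (measurableSet_lt measurable_const Complex.measurable_im)
    fun z hz => ?_
  push_cast
  ring

end Pool.Agent.TH609.KG
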