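import Pool.Agent.TH609.KG.Forms

set_option autoImplicit false

/-!
# Job 118 (MP_38461c_gt), part 3: the action, equivariance and positivity
-/

open scoped Manifold ContDiff Topology ComplexConjugate MatrixGroups UpperHalfPlane Matrix
open MeasureTheory Set Filter

namespace Pool.Agent.TH609.KG
open Pool.Agent.TH598.KG
open Pool.Agent.W549.CY (Cn dz dzbar)
open Pool.Agent.W711.KC (jj nn jj_ne im_mob)

/-! ### the sesquilinear forms -/

/-- `∂N(v)` -/
noncomputable def nd (p v : Cn 3) : ℂ :=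
  -Complex.I / 2 * v 0 + (conj (p 1) * v 1 + conj (p 2) * v 2)

theorem conj_nd (p v : Cn 3) : conj (nd p v) =
    Complex.I / 2 * conj (v 0) + (p 1 * conj (v 1) + p 2 * conj (v 2)) := by
  simp [nd, conj_two]

theorem hf_Th (p v : Cn 3) : hf (Th p) v =
    (v 1 * conj (v 1) + v 2 * conj (v 2)) * (Nn p : ℂ)⁻¹ -
      nd p v * conj (nd p v) * ((Nn p : ℂ) * (Nn p : ℂ))⁻¹ +
      v 0 * conj (v 0) / 4 * (((p 0).im : ℂ) * ((p 0).im : ℂ))⁻¹ := by
  rw [conj_nd]
  unfold hf nd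
  simp only [Th_apply, Fin.sum_univ_three, Ev, nv, nvc, mv, mvc, Matrix.cons_val_zero,
    Matrix.cons_val_one, Matrix.cons_val_two, Matrix.tail_cons, Matrix.head_cons,
    Matrix.cons_val]
  linear_combination (-(v 0 * conj (v 0)) / 4 * (((p 0).im : ℂ) * ((p 0).im : ℂ))⁻¹) *
    Complex.I_mul_I

theorem hf_omC (p v : Cn 3) : hf (omC p) v =
    v 0 * conj (v 0) / 2 * (((p 0).im : ℂ) * ((p 0).im : ℂ))⁻¹ := by
  unfold hf
  simp only [omC_apply, Fin.sum_univ_three, mv, mvc, Matrix.cons_val_zero,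
    Matrix.cons_val_one, Matrix.cons_val_two, Matrix.tail_cons, Matrix.head_cons,
    Matrix.cons_val]
  linear_combination (-(v 0 * conj (v 0)) / 2 * (((p 0).im : ℂ) * ((p 0).im : ℂ))⁻¹) *
    Complex.I_mul_I

theorem hf_add (A B : M3) (v : Cn 3) : hf (A + B) v = hf A v + hf B v := by
  unfold hf
  simp only [Matrix.add_apply, Fin.sum_univ_three]
  ring

theorem hf_sub (A B : M3) (v : Cn 3) : hf (A - B) v = hf A v - hf B v := by
  unfold hf
  simp only [Matrix.sub_apply, Fin.sum_univ_three]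
  ring

theorem hf_smul (c : ℂ) (A : M3) (v : Cn 3) : hf (c • A) v = c * hf A v := by
  unfold hf
  simp only [Matrix.smul_apply, Fin.sum_univ_three, smul_eq_mul]
  ring

/-- the real number `hf (Th p) v` -/
noncomputable def qT (p v : Cn 3) : ℝ :=
  (Complex.normSq (v 1) + Complex.normSq (v 2)) / Nn p - Complex.normSq (nd p v) / Nn p ^ 2 +
    Complex.normSq (v 0) / (4 * (p 0).im ^ 2)

/-- the real number `hf (omC p) v` -/
noncomputable def qC (p v : Cn 3) : ℝ := Complex.normSq (v 0) / (2 * (p 0).im ^ 2)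

theorem hf_Th_real (p v : Cn 3) : hf (Th p) v = (qT p v : ℂ) := by
  rw [hf_Th]
  unfold qT
  push_cast
  simp only [Complex.normSq_eq_conj_mul_self, div_eq_mul_inv, mul_inv, pow_two]
  ring

theorem hf_omC_real (p v : Cn 3) : hf (omC p) v = (qC p v : ℂ) := by
  rw [hf_omC]
  unfold qC
  push_cast
  simp only [Complex.normSq_eq_conj_mul_self, div_eq_mul_inv, mul_inv, pow_two]
  ring

theorem qC_nonneg (p v : Cn 3) : 0 ≤ qC p v := by
  unfold qC
  have := Complex.normSq_nonneg (v 0)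
  positivity

/-- the Cauchy-Schwarz estimate -/
theorem nd_le {p : Cn 3} (hp : p ∈ UU) (v : Cn 3) : Complex.normSq (nd p v) ≤
    Nn p * (Complex.normSq (v 1) + Complex.normSq (v 2) + Complex.normSq (v 0) / (4 * (p 0).im)) := by
  have hy : 0 < (p 0).im := hp
  have h1 : ‖nd p v‖ ≤ ‖v 0‖ / 2 + (‖p 1‖ * ‖v 1‖ + ‖p 2‖ * ‖v 2‖) := by
    unfold nd
    refine (norm_add_le _ _).trans ?_
    refine add_le_add ?_ ((norm_add_le _ _).trans ?_)
    · rw [norm_mul, norm_div, norm_neg, Complex.norm_I]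
      simp
      linarith [norm_nonneg (v 0)]
    · rw [norm_mul, norm_mul, Complex.norm_conj, Complex.norm_conj]
  have h2 : Complex.normSq (nd p v) ≤ (‖v 0‖ / 2 + (‖p 1‖ * ‖v 1‖ + ‖p 2‖ * ‖v 2‖)) ^ 2 := by
    rw [Complex.normSq_eq_norm_sq]
    exact pow_le_pow_left₀ (norm_nonneg _) h1 2
  refine h2.trans ?_
  unfold Nn nsq
  simp only [Complex.normSq_eq_norm_sq]
  have hx := norm_nonneg (v 0)
  set y := (p 0).im with hyd
  set a := ‖v 0‖
  set b1 := ‖p 1‖
  set b2 := ‖p 2‖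
  set c1 := ‖v 1‖
  set c2 := ‖v 2‖
  have h3 : (y + (b1 ^ 2 + b2 ^ 2)) * (c1 ^ 2 + c2 ^ 2 + a ^ 2 / (4 * y)) -
      (a / 2 + (b1 * c1 + b2 * c2)) ^ 2 =
      (b1 * c2 - b2 * c1) ^ 2 + (y * c1 - a / 2 * b1) ^ 2 / y + (y * c2 - a / 2 * b2) ^ 2 / y := by
    field_simp
    ring
  have h4 : 0 ≤ (b1 * c2 - b2 * c1) ^ 2 + (y * c1 - a / 2 * b1) ^ 2 / y +
      (y * c2 - a / 2 * b2) ^ 2 / y := by positivity
  linarith

theorem qT_ge {p : Cn 3} (hp : p ∈ UU) (v : Cn 3) : sig p / 2 * qC p v ≤ qT p v := by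
  have hy : 0 < (p 0).im := hp
  have hN := Nn_pos' hp
  have h1 := nd_le hp v
  have h2 : Complex.normSq (nd p v) / Nn p ^ 2 ≤ (Complex.normSq (v 1) + Complex.normSq (v 2) +
      Complex.normSq (v 0) / (4 * (p 0).im)) / Nn p := by
    rw [div_le_div_iff₀ (by positivity) hN]
    nlinarith
  have h3 : sig p / 2 * qC p v = Complex.normSq (v 0) / (4 * (p 0).im ^ 2) -
      Complex.normSq (v 0) / (4 * (p 0).im) / Nn p := by
    unfold sig qC
    have : nsq p = Nn p - (p 0).im := by unfold Nn; ring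
    rw [this]
    field_simp
    ring
  unfold qT
  rw [h3]
  have h4 : (Complex.normSq (v 1) + Complex.normSq (v 2) +
      Complex.normSq (v 0) / (4 * (p 0).im)) / Nn p = (Complex.normSq (v 1) +
      Complex.normSq (v 2)) / Nn p + Complex.normSq (v 0) / (4 * (p 0).im) / Nn p := by ring
  linarith

theorem sig_nonneg {p : Cn 3} (hp : p ∈ UU) : 0 ≤ sig p :=
  div_nonneg (nsq_nonneg p) (Nn_pos' hp).le

theorem sig_lt {p : Cn 3} (hp : p ∈ UU) : sig p < 1 := by
  have hy : 0 < (p 0).im := hp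
  unfold sig
  rw [div_lt_one (Nn_pos' hp)]
  unfold Nn
  linarith

theorem qT_nonneg {p : Cn 3} (hp : p ∈ UU) (v : Cn 3) : 0 ≤ qT p v := by
  refine le_trans ?_ (qT_ge hp v)
  have h1 := sig_nonneg hp
  have h2 := qC_nonneg p v
  positivity

theorem hf_g0 (p v : Cn 3) : hf (g0 p) v = ((qT p v + qC p v / 2 : ℝ) : ℂ) := by
  unfold g0
  rw [hf_add, hf_smul, hf_Th_real, hf_omC_real]
  push_cast
  ring

theorem qg_pos {p : Cn 3} (hp : p ∈ UU) {v : Cn 3} (hv : v ≠ 0) : 0 < qT p v + qC p v / 2 := by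
  have hy : 0 < (p 0).im := hp
  have hN := Nn_pos' hp
  by_cases h0 : v 0 = 0
  · have h1 : nd p v = conj (p 1) * v 1 + conj (p 2) * v 2 := by
      unfold nd
      rw [h0]
      ring
    have h2 : Complex.normSq (nd p v) ≤ nsq p * (Complex.normSq (v 1) + Complex.normSq (v 2)) := by
      have h3 : ‖nd p v‖ ≤ ‖p 1‖ * ‖v 1‖ + ‖p 2‖ * ‖v 2‖ := by
        rw [h1]
        refine (norm_add_le _ _).trans ?_
        rw [norm_mul, norm_mul, Complex.norm_conj, Complex.norm_conj]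
      rw [Complex.normSq_eq_norm_sq]
      refine (pow_le_pow_left₀ (norm_nonneg _) h3 2).trans ?_
      unfold nsq
      simp only [Complex.normSq_eq_norm_sq]
      nlinarith [sq_nonneg (‖p 1‖ * ‖v 2‖ - ‖p 2‖ * ‖v 1‖)]
    have h4 : 0 < Complex.normSq (v 1) + Complex.normSq (v 2) := by
      rcases eq_or_ne (v 1) 0 with h5 | h5
      · have h6 : v 2 ≠ 0 := by
          intro h6
          apply hv
          funext k
          rcases fin3 k with e | e | e <;> subst e
          · exact h0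
          · exact h5
          · exact h6
        exact add_pos_of_nonneg_of_pos (Complex.normSq_nonneg _) (Complex.normSq_pos.2 h6)
      · exact add_pos_of_pos_of_nonneg (Complex.normSq_pos.2 h5) (Complex.normSq_nonneg _)
    have h5 : Complex.normSq (nd p v) / Nn p ^ 2 <
        (Complex.normSq (v 1) + Complex.normSq (v 2)) / Nn p := by
      rw [div_lt_div_iff₀ (by positivity) hN]
      have : nsq p < Nn p := by unfold Nn; linarith
      have h6 : nsq p * (Complex.normSq (v 1) + Complex.normSq (v 2)) <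
          Nn p * (Complex.normSq (v 1) + Complex.normSq (v 2)) := by nlinarith
      nlinarith
    have h7 : qC p v = 0 := by unfold qC; rw [h0]; simp
    have h8 : 0 < qT p v := by
      unfold qT
      rw [h0, map_zero, zero_div, add_zero]
      linarith
    rw [h7]
    linarith
  · have h1 := qT_nonneg hp v
    have h2 : 0 < qC p v := by
      unfold qC
      have := Complex.normSq_pos.2 h0
      positivity
    linarith

/-! ### the action -/

theorem Fa_mem' (g : SL(2, ℝ)) {p : Cn 3} (hp : p ∈ UU) : Fa g p ∈ UU := by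
  show 0 < (nn g (p 0) / jj g (p 0)).im
  rw [im_mob g hp]
  have : 0 < Complex.normSq (jj g (p 0)) := Complex.normSq_pos.2 (jj_ne g hp)
  have hy : 0 < (p 0).im := hp
  positivity

theorem im_Fa (g : SL(2, ℝ)) {p : Cn 3} (hp : p ∈ UU) :
    ((Fa g p) 0).im = (p 0).im / Complex.normSq (jj g (p 0)) := im_mob g hp

theorem nsq_Fa (g : SL(2, ℝ)) (p : Cn 3) :
    nsq (Fa g p) = nsq p / Complex.normSq (jj g (p 0)) := by
  show Complex.normSq (p 1 / jj g (p 0)) + Complex.normSq (p 2 / jj g (p 0)) = _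
  rw [map_div₀, map_div₀]
  unfold nsq
  ring

theorem Nn_Fa (g : SL(2, ℝ)) {p : Cn 3} (hp : p ∈ UU) :
    Nn (Fa g p) = Nn p / Complex.normSq (jj g (p 0)) := by
  unfold Nn
  rw [im_Fa g hp, nsq_Fa]
  ring

theorem ss_Fa' (g : SL(2, ℝ)) {p : Cn 3} (hp : p ∈ UU) : ss (Fa g p) = ss p := by
  have h1 : Complex.normSq (jj g (p 0)) ≠ 0 := (Complex.normSq_pos.2 (jj_ne g hp)).ne'
  have hy : (p 0).im ≠ 0 := ne_of_gt hp
  unfold ss
  rw [im_Fa g hp, nsq_Fa]
  field_simp

theorem sig_Fa' (g : SL(2, ℝ)) {p : Cn 3} (hp : p ∈ UU) : sig (Fa g p) = sig p := by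
  have h1 : Complex.normSq (jj g (p 0)) ≠ 0 := (Complex.normSq_pos.2 (jj_ne g hp)).ne'
  have hN := (Nn_pos' hp).ne'
  unfold sig
  rw [Nn_Fa g hp, nsq_Fa]
  field_simp

theorem fderiv_Fa' (g : SL(2, ℝ)) {p : Cn 3} (hp : p ∈ UU) (v : Cn 3) :
    fderiv ℂ (Fa g) p v = ![v 0 / jj g (p 0) ^ 2,
      v 1 / jj g (p 0) - (g 1 0 : ℂ) * p 1 * v 0 / jj g (p 0) ^ 2,
      v 2 / jj g (p 0) - (g 1 0 : ℂ) * p 2 * v 0 / jj g (p 0) ^ 2] := by
  have hj : jj g (p 0) ≠ 0 := jj_ne g hp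
  have hc : ∀ k : Fin 3, HasFDerivAt (fun p : Cn 3 => p k)
      (ContinuousLinearMap.proj k : Cn 3 →L[ℂ] ℂ) p := fun k =>
    (ContinuousLinearMap.proj k : Cn 3 →L[ℂ] ℂ).hasFDerivAt
  have hjc : HasFDerivAt (fun p : Cn 3 => jj g (p 0)) _ p :=
    (((hc 0).const_mul (g 1 0 : ℂ)).add_const (g 1 1 : ℂ))
  have hnc : HasFDerivAt (fun p : Cn 3 => nn g (p 0)) _ p :=
    (((hc 0).const_mul (g 0 0 : ℂ)).add_const (g 0 1 : ℂ))
  have hd := Pool.Agent.W711.KC.det_eq g
  have hdc : (g 0 0 : ℂ) * g 1 1 - (g 0 1 : ℂ) * g 1 0 = 1 := by exact_mod_cast hd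
  have hji : HasFDerivAt (fun p : Cn 3 => (jj g (p 0))⁻¹) _ p := (hasFDerivAt_inv hj).comp p hjc
  have k0 : HasFDerivAt (fun p : Cn 3 => nn g (p 0) * (jj g (p 0))⁻¹) _ p := hnc.mul hji
  have k1 : HasFDerivAt (fun p : Cn 3 => p 1 * (jj g (p 0))⁻¹) _ p := (hc 1).mul hji
  have k2 : HasFDerivAt (fun p : Cn 3 => p 2 * (jj g (p 0))⁻¹) _ p := (hc 2).mul hji
  have hF : Fa g = fun p : Cn 3 => (![nn g (p 0) * (jj g (p 0))⁻¹, p 1 * (jj g (p 0))⁻¹,
      p 2 * (jj g (p 0))⁻¹] : Cn 3) := by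
    funext p
    simp only [Fa, div_eq_mul_inv]
  have hdiff : DifferentiableAt ℂ (Fa g) p := by
    rw [hF, differentiableAt_pi]
    intro i
    rcases fin3 i with e | e | e <;> subst e
    · exact k0.differentiableAt
    · exact k1.differentiableAt
    · exact k2.differentiableAt
  have hcomp : ∀ i : Fin 3, fderiv ℂ (Fa g) p v i = fderiv ℂ (fun q => Fa g q i) p v := by
    intro i
    rw [fderiv_apply hdiff i]
    rfl
  funext i
  rw [hcomp]
  rcases fin3 i with e | e | e <;> subst e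
  · have : (fun q => Fa g q 0) = fun p : Cn 3 => nn g (p 0) * (jj g (p 0))⁻¹ := by
      funext p; simp [Fa, div_eq_mul_inv]
    rw [this, k0.fderiv]
    simp
    field_simp
    unfold nn jj
    linear_combination v 0 * hdc
  · have : (fun q => Fa g q 1) = fun p : Cn 3 => p 1 * (jj g (p 0))⁻¹ := by
      funext p; simp [Fa, div_eq_mul_inv]
    rw [this, k1.fderiv]
    simp
    field_simp
    ring
  · have : (fun q => Fa g q 2) = fun p : Cn 3 => p 2 * (jj g (p 0))⁻¹ := by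
      funext p; simp [Fa, div_eq_mul_inv]
    rw [this, k2.fderiv]
    simp
    field_simp
    ring

end Pool.Agent.TH609.KG
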