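import Pool.Agent.TH609.KG.Equi

set_option autoImplicit false

/-!
# Job 118 (MP_38461c_gt), part 5: curvature form and balanced metric
-/

open scoped Manifold ContDiff Topology ComplexConjugate MatrixGroups UpperHalfPlane Matrix
open MeasureTheory Set Filter

namespace Pool.Agent.TH609.KG
open Pool.Agent.TH598.KG
open Pool.Agent.W549.CY (Cn dz dzbar)
open Pool.Agent.W711.KC (jj nn jj_ne im_mob)

theorem HW.pow {f : Cn 3 → ℂ} {a b : Fin 3 → ℂ} {p : Cn 3} (h : HW f a b p) (n : ℕ) :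
    HW (fun q => f q ^ (n + 1)) (fun i => (n + 1) * f p ^ n * a i)
      (fun i => (n + 1) * f p ^ n * b i) p := by
  induction n with
  | zero =>
    refine (HW.congr_ev h (Eventually.of_forall fun q => ?_)).congr_of (fun i => ?_)
      (fun i => ?_) <;> simp
  | succ n ih =>
    have h2 := ih.mul h
    refine (HW.congr_ev h2 (Eventually.of_forall fun q => ?_)).congr_of (fun i => ?_)
      (fun i => ?_)
    · exact pow_succ _ _
    · push_cast; ring
    · push_cast; ring

theorem Ev_symm (j k : Fin 3) : Ev j k = Ev k j := by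
  rcases fin3 j with e | e | e <;> rcases fin3 k with e' | e' | e' <;> subst e <;> subst e' <;> rfl

theorem conj_Ev (j k : Fin 3) : conj (Ev j k) = Ev j k := by
  rcases fin3 j with e | e | e <;> rcases fin3 k with e' | e' | e' <;> subst e <;> subst e' <;>
    simp [Ev]

theorem Th_herm' (p : Cn 3) : (Th p).IsHermitian := by
  ext j k
  rw [Matrix.conjTranspose_apply]
  show conj (Th p k j) = Th p j k
  rw [Th_apply, Th_apply]
  simp only [map_add, map_sub, map_mul, map_inv₀, Complex.conj_ofReal, conj_Ev, conj_nv, conj_nvc,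
    conj_mv, conj_mvc]
  rw [Ev_symm]
  ring

theorem omC_herm' (p : Cn 3) : (omC p).IsHermitian := by
  ext j k
  rw [Matrix.conjTranspose_apply]
  show conj (omC p k j) = omC p j k
  rw [omC_apply, omC_apply]
  simp only [map_mul, map_inv₀, Complex.conj_ofReal, conj_mv, conj_mvc, conj_two]
  ring

theorem hf_rho0 (p v : Cn 3) : hf (rho0 p) v = ((3 * qT p v - 2 * qC p v : ℝ) : ℂ) := by
  unfold rho0
  rw [hf_sub, hf_smul, hf_smul, hf_Th_real, hf_omC_real]
  push_cast
  ring

theorem bdd_rho0' : Bdd rho0 4 := by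
  intro p hp v
  rw [hf_rho0, hf_g0, Complex.ofReal_re, Complex.ofReal_re, abs_le]
  have h1 := qT_nonneg hp v
  have h2 := qC_nonneg p v
  constructor <;> linarith

theorem rho0_apply (p : Cn 3) (j k : Fin 3) : rho0 p j k =
    3 * Ev j k * (Nn p : ℂ)⁻¹ - 3 * nv p j * nvc p k * ((Nn p : ℂ) * (Nn p : ℂ))⁻¹ -
      mv j * mvc k * (((p 0).im : ℂ) * ((p 0).im : ℂ))⁻¹ := by
  have : rho0 p j k = 3 * Th p j k - 2 * omC p j k := rfl
  rw [this, Th_apply, omC_apply]
  ring

theorem rho0_eq' {p : Cn 3} (hp : p ∈ UU) (j k : Fin 3) :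
    rho0 p j k =
      dz j (dzbar k fun q => ((3 * Real.log (Nn q) + Real.log (q 0).im : ℝ) : ℂ)) p := by
  have h1 : ∀ q ∈ UU, dzbar k (fun q => ((3 * Real.log (Nn q) + Real.log (q 0).im : ℝ) : ℂ)) q =
      3 * (nvc q k * (Nn q : ℂ)⁻¹) + mvc k * ((q 0).im : ℂ)⁻¹ := by
    intro q hq
    have hN := Nn_pos' hq
    have hy : 0 < (q 0).im := hq
    have e1 := (HW_N q).real_comp (Real.hasDerivAt_log hN.ne')
    have e2 := (HW.real_comp (f := fun q : Cn 3 => (q 0).im) (HW_y q)
      (Real.hasDerivAt_log hy.ne'))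
    have e3 := (e1.const_mul 3).add e2
    have e4 : (fun q : Cn 3 => ((3 * Real.log (Nn q) + Real.log (q 0).im : ℝ) : ℂ)) =
        fun q : Cn 3 => 3 * ((Real.log (Nn q) : ℝ) : ℂ) + ((Real.log (q 0).im : ℝ) : ℂ) := by
      funext q
      push_cast
      ring
    rw [e4, e3.dzbar]
    push_cast
    ring
  have hev : (fun q => dzbar k (fun q => ((3 * Real.log (Nn q) + Real.log (q 0).im : ℝ) : ℂ)) q)
      =ᶠ[𝓝 p] fun q => 3 * (nvc q k * (Nn q : ℂ)⁻¹) + mvc k * ((q 0).im : ℂ)⁻¹ := by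
    filter_upwards [isOpen_UU.mem_nhds hp] with q hq using h1 q hq
  have h2 := (((HW_nvc p k).mul (HW_Ninv hp)).const_mul 3).add ((HW_yinv hp).const_mul (mvc k))
  have h3 := h2.congr_ev hev
  have h4 := h3.dz j
  rw [show (dzbar k fun q => ((3 * Real.log (Nn q) + Real.log (q 0).im : ℝ) : ℂ)) =
    fun q => dzbar k (fun q => ((3 * Real.log (Nn q) + Real.log (q 0).im : ℝ) : ℂ)) q from rfl,
    h4, rho0_apply]
  have hN := Nc_ne hp
  have hy := yc_ne hp
  field_simp
  ring

/-! ### the adjugate of a matrix of the family -/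

/-- `α E - β n n* + γ m m*` -/
noncomputable def AA (α β γ : ℂ) (p : Cn 3) : M3 :=
  Matrix.of fun j k => α * Ev j k - β * (nv p j * nvc p k) + γ * (mv j * mvc k)

/-- its adjugate -/
noncomputable def adA (α β γ : ℂ) (p : Cn 3) : M3 :=
  !![α * (α - β * (conj (p 1) * p 1 + conj (p 2) * p 2)), -(Complex.I * α * β / 2) * p 1,
      -(Complex.I * α * β / 2) * p 2;
    Complex.I * α * β / 2 * conj (p 1),
      (1 / 4) * (α * (γ - β) - β * γ * (conj (p 2) * p 2)), β * γ / 4 * (conj (p 1) * p 2);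
    Complex.I * α * β / 2 * conj (p 2), β * γ / 4 * (conj (p 2) * p 1),
      (1 / 4) * (α * (γ - β) - β * γ * (conj (p 1) * p 1))]

theorem adjugate_AA (α β γ : ℂ) (p : Cn 3) : (AA α β γ p).adjugate = adA α β γ p := by
  rw [Matrix.adjugate_fin_three]
  have hI := Complex.I_mul_I
  have hI2 := Complex.I_sq
  ext j k
  rcases fin3 j with e | e | e <;> rcases fin3 k with e' | e' | e' <;> subst e <;> subst e' <;>
    simp [AA, adA, Ev, nv, nvc, mv, mvc] <;> ring_nf <;> simp [hI2] <;> ring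

theorem Gm_eq (p : Cn 3) : Gm p = AA ((f1 (sig p) : ℂ) * (Nn p : ℂ)⁻¹)
    ((f1 (sig p) : ℂ) * ((Nn p : ℂ) * (Nn p : ℂ))⁻¹)
    (((f1 (sig p) : ℂ) + 2 * (f2 (sig p) : ℂ)) * (((p 0).im : ℂ) * ((p 0).im : ℂ))⁻¹) p := by
  ext j k
  have : Gm p j k = (f1 (sig p) : ℂ) * Th p j k + (f2 (sig p) : ℂ) * omC p j k := rfl
  rw [this, Th_apply, omC_apply]
  simp only [AA, Matrix.of_apply]
  ring

theorem padj_self (a : M3) : padj a a = (2 : ℂ) • a.adjugate := by
  unfold padj
  have h : a + a = (2 : ℂ) • a := by rw [two_smul]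
  rw [h, Matrix.adjugate_smul]
  simp only [Fintype.card_fin]
  ext j k
  simp only [Matrix.sub_apply, Matrix.smul_apply, smul_eq_mul]
  norm_num
  ring

end Pool.Agent.TH609.KG
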