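import Pool.Agent.TH609.KG.Bal

set_option autoImplicit false

/-!
# Job 118 (MP_38461c_gt), part 6: the balanced metric
-/

open scoped Manifold ContDiff Topology ComplexConjugate MatrixGroups UpperHalfPlane Matrix
open MeasureTheory Set Filter

namespace Pool.Agent.TH609.KG
open Pool.Agent.TH598.KG
open Pool.Agent.W549.CY (Cn dz dzbar)
open Pool.Agent.W711.KC (jj nn jj_ne im_mob)

theorem f1_pos (x : ℝ) : 0 < f1 x := by unfold f1; positivity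

theorem f1_f2 (x : ℝ) : f1 x * f2 x = 1 - 10 * x ^ 3 - 90 * x ^ 5 := by
  have h := (f1_pos x).ne'
  unfold f1 at h
  unfold f1 f2
  field_simp

noncomputable def h1 (x : ℝ) : ℝ := 1 + 30 * x ^ 2 + 225 * x ^ 4
noncomputable def h2 (x : ℝ) : ℝ := 3 + 30 * x ^ 2 - 20 * x ^ 3 + 225 * x ^ 4 - 180 * x ^ 5
noncomputable def h1' (x : ℝ) : ℝ := 60 * x + 900 * x ^ 3

theorem h1_eq (x : ℝ) : h1 x = f1 x * f1 x := by unfold h1 f1; ring

theorem h2_eq (x : ℝ) : h2 x = f1 x * (f1 x + 2 * f2 x) := by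
  have h := f1_f2 x
  have e : f1 x * (f1 x + 2 * f2 x) = f1 x * f1 x + 2 * (f1 x * f2 x) := by ring
  rw [e, h]
  unfold h2 f1
  ring

theorem h1_deriv (x : ℝ) : HasDerivAt h1 (h1' x) x := by
  unfold h1 h1'
  have a2 := (hasDerivAt_pow 2 x).const_mul 30
  have a4 := (hasDerivAt_pow 4 x).const_mul 225
  have := ((a2.const_add 1).add a4)
  refine this.congr_deriv ?_
  norm_num
  ring

theorem h2_deriv (x : ℝ) : HasDerivAt h2 (h1' x * (1 - x)) x := by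
  unfold h2 h1'
  have a2 := (hasDerivAt_pow 2 x).const_mul 30
  have a3 := (hasDerivAt_pow 3 x).const_mul 20
  have a4 := (hasDerivAt_pow 4 x).const_mul 225
  have a5 := (hasDerivAt_pow 5 x).const_mul 180
  have := ((((a2.const_add 3).sub a3).add a4).sub a5)
  refine this.congr_deriv ?_
  norm_num
  ring

/-- twice the adjugate of the balanced metric -/
noncomputable def padG (H1 H2 N Y : ℂ) (p : Cn 3) : M3 :=
  !![2 * H1 * Y * (N ^ 3)⁻¹, -Complex.I * (H1 * p 1 * (N ^ 3)⁻¹),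
      -Complex.I * (H1 * p 2 * (N ^ 3)⁻¹);
    Complex.I * (H1 * conj (p 1) * (N ^ 3)⁻¹),
      (1 / 2) * (H2 * N⁻¹ * (Y ^ 2)⁻¹ - H1 * (N ^ 3)⁻¹ -
        H2 * (conj (p 2) * p 2) * (N ^ 2)⁻¹ * (Y ^ 2)⁻¹),
      (1 / 2) * (H2 * (conj (p 1) * p 2) * (N ^ 2)⁻¹ * (Y ^ 2)⁻¹);
    Complex.I * (H1 * conj (p 2) * (N ^ 3)⁻¹),
      (1 / 2) * (H2 * (conj (p 2) * p 1) * (N ^ 2)⁻¹ * (Y ^ 2)⁻¹),
      (1 / 2) * (H2 * N⁻¹ * (Y ^ 2)⁻¹ - H1 * (N ^ 3)⁻¹ -
        H2 * (conj (p 1) * p 1) * (N ^ 2)⁻¹ * (Y ^ 2)⁻¹)]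

theorem Nn_split (p : Cn 3) : (Nn p : ℂ) = ((p 0).im : ℂ) +
    (conj (p 1) * p 1 + conj (p 2) * p 2) := by
  unfold Nn nsq
  push_cast
  rw [Complex.normSq_eq_conj_mul_self, Complex.normSq_eq_conj_mul_self]

theorem padj_Gm {p : Cn 3} (hp : p ∈ UU) : padj (Gm p) (Gm p) =
    padG (h1 (sig p)) (h2 (sig p)) (Nn p) ((p 0).im) p := by
  rw [padj_self, Gm_eq, adjugate_AA]
  have hN := Nc_ne hp
  have hy := yc_ne hp
  have e1 : ((h1 (sig p) : ℝ) : ℂ) = (f1 (sig p) : ℂ) * (f1 (sig p) : ℂ) := by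
    rw [h1_eq]; push_cast; ring
  have e2 : ((h2 (sig p) : ℝ) : ℂ) = (f1 (sig p) : ℂ) * ((f1 (sig p) : ℂ) + 2 * (f2 (sig p) : ℂ)) := by
    rw [h2_eq]; push_cast; ring
  rw [e1, e2]
  have hNN := Nn_split p
  ext j k
  rcases fin3 j with e | e | e <;> rcases fin3 k with e' | e' | e' <;> subst e <;> subst e' <;>
    simp only [adA, padG, Matrix.smul_apply, smul_eq_mul, Matrix.of_apply, Matrix.cons_val',
      Matrix.cons_val_zero, Matrix.cons_val_one, Matrix.cons_val_two, Matrix.tail_cons,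
      Matrix.head_cons, Matrix.cons_val_fin_one, Matrix.vecHead]
  · have hr : conj (p 1) * p 1 + conj (p 2) * p 2 = (Nn p : ℂ) - ((p 0).im : ℂ) := by
      rw [hNN]; ring
    rw [hr]
    field_simp
    ring
  all_goals
    first
    | (field_simp; done)
    | (field_simp; ring)

/-! ### derivatives of the building blocks -/

/-- the derivative of `σ` -/
noncomputable def sv (p : Cn 3) (i : Fin 3) : ℂ :=
  (((p 0).im : ℂ) * nv p i - (Nn p : ℂ) * mv i) / (Nn p : ℂ) ^ 2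

theorem sig_eq {p : Cn 3} (hp : p ∈ UU) : (sig p : ℂ) = 1 - ((p 0).im : ℂ) * (Nn p : ℂ)⁻¹ := by
  have hN := Nc_ne hp
  have h : (nsq p : ℂ) = (Nn p : ℂ) - ((p 0).im : ℂ) := by
    unfold Nn; push_cast; ring
  unfold sig
  rw [Complex.ofReal_div, h]
  field_simp

theorem HW_sig {p : Cn 3} (hp : p ∈ UU) : ∃ b, HW (fun q => (sig q : ℂ)) (sv p) b p := by
  have h1 := (HW.const 1 p).sub ((HW_y p).mul (HW_Ninv hp))
  have h2 : (fun q : Cn 3 => (sig q : ℂ)) =ᶠ[𝓝 p]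
      fun q : Cn 3 => 1 - ((q 0).im : ℂ) * (Nn q : ℂ)⁻¹ := by
    filter_upwards [isOpen_UU.mem_nhds hp] with q hq using sig_eq hq
  refine ⟨_, (h1.congr_ev h2).congr_of (fun i => ?_) (fun i => rfl)⟩
  have hN := Nc_ne hp
  unfold sv
  field_simp
  ring

theorem HW_H1 {p : Cn 3} (hp : p ∈ UU) :
    ∃ b, HW (fun q => ((h1 (sig q) : ℝ) : ℂ)) (fun i => (h1' (sig p) : ℂ) * sv p i) b p := by
  obtain ⟨b, h⟩ := HW_sig hp
  exact ⟨_, h.real_comp (h1_deriv (sig p))⟩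

theorem HW_H2 {p : Cn 3} (hp : p ∈ UU) :
    ∃ b, HW (fun q => ((h2 (sig q) : ℝ) : ℂ))
      (fun i => (h1' (sig p) : ℂ) * (((p 0).im : ℂ) * (Nn p : ℂ)⁻¹) * sv p i) b p := by
  obtain ⟨b, h⟩ := HW_sig hp
  refine ⟨_, (h.real_comp (h2_deriv (sig p))).congr_of (fun i => ?_) (fun i => rfl)⟩
  have : ((h1' (sig p) * (1 - sig p) : ℝ) : ℂ) =
      (h1' (sig p) : ℂ) * (((p 0).im : ℂ) * (Nn p : ℂ)⁻¹) := by
    push_cast
    rw [sig_eq hp]
    ring
  rw [this]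

theorem HW_Nk {p : Cn 3} (hp : p ∈ UU) (n : ℕ) :
    ∃ b, HW (fun q => ((Nn q : ℂ) ^ (n + 1))⁻¹) (fun i => -((n + 1) * nv p i) *
      ((Nn p : ℂ) ^ (n + 2))⁻¹) b p := by
  have hN := Nc_ne hp
  refine ⟨_, (((HW_N p).pow n).inv (pow_ne_zero _ hN)).congr_of (fun i => ?_) (fun i => rfl)⟩
  field_simp
  ring

theorem HW_Yk {p : Cn 3} (hp : p ∈ UU) (n : ℕ) :
    ∃ b, HW (fun q => (((q 0).im : ℂ) ^ (n + 1))⁻¹) (fun i => -((n + 1) * mv i) *
      (((p 0).im : ℂ) ^ (n + 2))⁻¹) b p := by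
  have hy := yc_ne hp
  refine ⟨_, (((HW_y p).pow n).inv (pow_ne_zero _ hy)).congr_of (fun i => ?_) (fun i => rfl)⟩
  field_simp
  ring

theorem HW_N2 {p : Cn 3} (hp : p ∈ UU) :
    ∃ b, HW (fun q => ((Nn q : ℂ) ^ 2)⁻¹) (fun i => -(2 * nv p i) * ((Nn p : ℂ) ^ 3)⁻¹) b p := by
  obtain ⟨b, h⟩ := HW_Nk hp 1
  refine ⟨b, h.congr_of (fun i => ?_) (fun i => rfl)⟩
  norm_num

theorem HW_N3 {p : Cn 3} (hp : p ∈ UU) :
    ∃ b, HW (fun q => ((Nn q : ℂ) ^ 3)⁻¹) (fun i => -(3 * nv p i) * ((Nn p : ℂ) ^ 4)⁻¹) b p := by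
  obtain ⟨b, h⟩ := HW_Nk hp 2
  refine ⟨b, h.congr_of (fun i => ?_) (fun i => rfl)⟩
  norm_num

theorem HW_Y2 {p : Cn 3} (hp : p ∈ UU) :
    ∃ b, HW (fun q => (((q 0).im : ℂ) ^ 2)⁻¹) (fun i => -(2 * mv i) * (((p 0).im : ℂ) ^ 3)⁻¹)
      b p := by
  obtain ⟨b, h⟩ := HW_Yk hp 1
  refine ⟨b, h.congr_of (fun i => ?_) (fun i => rfl)⟩
  norm_num

theorem hev_padG {p : Cn 3} (hp : p ∈ UU) (k j : Fin 3) :
    (fun q => padj (Gm q) (Gm q) k j) =ᶠ[𝓝 p]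
      fun q => padG (h1 (sig q)) (h2 (sig q)) (Nn q) ((q 0).im) q k j := by
  filter_upwards [isOpen_UU.mem_nhds hp] with q hq
  rw [padj_Gm hq]

theorem balanced_Gm' {p : Cn 3} (hp : p ∈ UU) (k : Fin 3) :
    ∑ j, dz j (fun q => padj (Gm q) (Gm q) k j) p = 0 := by
  obtain ⟨_, hH1⟩ := HW_H1 hp
  obtain ⟨_, hH2⟩ := HW_H2 hp
  obtain ⟨_, hN2⟩ := HW_N2 hp
  obtain ⟨_, hN3⟩ := HW_N3 hp
  obtain ⟨_, hY2⟩ := HW_Y2 hp
  have hN1 := HW_Ninv hp
  have hY := HW_y p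
  have hN := Nc_ne hp
  have hy := yc_ne hp
  have hNN := Nn_split p
  have hI := Complex.I_mul_I
  have s0 : sv p 0 = -Complex.I / 2 * (((p 0).im : ℂ) - (Nn p : ℂ)) / (Nn p : ℂ) ^ 2 := by
    unfold sv nv mv
    simp
    ring
  have s1 : sv p 1 = conj (p 1) * ((p 0).im : ℂ) / (Nn p : ℂ) ^ 2 := by
    unfold sv nv mv
    simp
    ring
  have s2 : sv p 2 = conj (p 2) * ((p 0).im : ℂ) / (Nn p : ℂ) ^ 2 := by
    unfold sv nv mv
    simp
    ring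
  have n0 : nv p 0 = -Complex.I / 2 := rfl
  have n1 : nv p 1 = conj (p 1) := rfl
  have n2 : nv p 2 = conj (p 2) := rfl
  have m0 : mv 0 = -Complex.I / 2 := rfl
  have m1 : mv 1 = 0 := rfl
  have m2 : mv 2 = 0 := rfl
  have i12 : ¬ ((1 : Fin 3) = 2) := by decide
  have i21 : ¬ ((2 : Fin 3) = 1) := by decide
  rw [Fin.sum_univ_three]
  rcases fin3 k with e | e | e <;> subst e
  · have d0 := ((((hH1.const_mul 2).mul hY).mul hN3).congr_ev (hev_padG hp 0 0)).dz 0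
    have d1 := ((((hH1.mul (HW.coord 1 p)).mul hN3).const_mul (-Complex.I)).congr_ev
      (hev_padG hp 0 1)).dz 1
    have d2 := ((((hH1.mul (HW.coord 2 p)).mul hN3).const_mul (-Complex.I)).congr_ev
      (hev_padG hp 0 2)).dz 2
    rw [d0, d1, d2, s0, s1, s2, n0, n1, n2, m0]
    simp only [if_true]
    field_simp
    linear_combination Complex.I * (h1' (sig p) * ((p 0).im : ℂ) - 3 * h1 (sig p) * (Nn p : ℂ)) *
      hNN
  · have d0 := ((((hH1.mul (HW.conj_coord 1 p)).mul hN3).const_mul Complex.I).congr_ev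
      (hev_padG hp 1 0)).dz 0
    have d1 := ((((((hH2.mul hN1).mul hY2).sub (hH1.mul hN3)).sub
      (((hH2.mul ((HW.conj_coord 2 p).mul (HW.coord 2 p))).mul hN2).mul hY2)).const_mul
        (1 / 2)).congr_ev (hev_padG hp 1 1)).dz 1
    have d2 := (((((hH2.mul ((HW.conj_coord 1 p).mul (HW.coord 2 p))).mul hN2).mul hY2).const_mul
        (1 / 2)).congr_ev (hev_padG hp 1 2)).dz 2
    rw [d0, d1, d2, s0, s1, s2, n0, n1, n2, m1, m2]
    simp only [if_true, i12, if_false]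
    field_simp
    linear_combination (((p 0).im : ℂ) ^ 3 * conj (p 1) * (3 * h1 (sig p) * (Nn p : ℂ) +
      (Nn p : ℂ) * h1' (sig p) - ((p 0).im : ℂ) * h1' (sig p))) * hI
  · have d0 := ((((hH1.mul (HW.conj_coord 2 p)).mul hN3).const_mul Complex.I).congr_ev
      (hev_padG hp 2 0)).dz 0
    have d1 := (((((hH2.mul ((HW.conj_coord 2 p).mul (HW.coord 1 p))).mul hN2).mul hY2).const_mul
        (1 / 2)).congr_ev (hev_padG hp 2 1)).dz 1
    have d2 := ((((((hH2.mul hN1).mul hY2).sub (hH1.mul hN3)).sub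
      (((hH2.mul ((HW.conj_coord 1 p).mul (HW.coord 1 p))).mul hN2).mul hY2)).const_mul
        (1 / 2)).congr_ev (hev_padG hp 2 2)).dz 2
    rw [d0, d1, d2, s0, s1, s2, n0, n1, n2, m1, m2]
    simp only [if_true, i21, if_false]
    field_simp
    linear_combination (((p 0).im : ℂ) ^ 3 * conj (p 2) * (3 * h1 (sig p) * (Nn p : ℂ) +
      (Nn p : ℂ) * h1' (sig p) - ((p 0).im : ℂ) * h1' (sig p))) * hI

theorem DD_Gm' {p : Cn 3} (hp : p ∈ UU) :
    DD (rho0 p) (Gm p) (Gm p) =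
      ((9 / 2 * sig p * f1 (sig p) ^ 2 + 6 * f1 (sig p) * f2 (sig p) - 2 * f1 (sig p) ^ 2 : ℝ) : ℂ) /
        (((p 0).im : ℂ) * (Nn p : ℂ) ^ 3) := by
  have hN := Nc_ne hp
  have hy := yc_ne hp
  have hNN := Nn_split p
  have hI := Complex.I_mul_I
  have hs := sig_eq hp
  unfold DD
  rw [padj_Gm hp, Matrix.trace_fin_three]
  simp only [Matrix.mul_apply, Fin.sum_univ_three, rho0_apply]
  have e1 : ((h1 (sig p) : ℝ) : ℂ) = (f1 (sig p) : ℂ) ^ 2 := by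
    rw [h1_eq]; push_cast; ring
  have e2 : ((h2 (sig p) : ℝ) : ℂ) = (f1 (sig p) : ℂ) * ((f1 (sig p) : ℂ) + 2 * (f2 (sig p) : ℂ)) := by
    rw [h2_eq]; push_cast; ring
  rw [e1, e2]
  push_cast
  rw [hs]
  simp only [padG, Ev, nv, nvc, mv, mvc, Matrix.smul_apply, smul_eq_mul, Matrix.of_apply,
    Matrix.cons_val', Matrix.cons_val_zero, Matrix.cons_val_one, Matrix.cons_val_two,
    Matrix.tail_cons, Matrix.head_cons, Matrix.cons_val_fin_one, Matrix.vecHead]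
  generalize (f1 (sig p) : ℂ) = F1 at *
  generalize (f2 (sig p) : ℂ) = F2 at *
  generalize (Nn p : ℂ) = N at *
  generalize ((p 0).im : ℂ) = Y at *
  generalize conj (p 1) = u1c at *
  generalize conj (p 2) = u2c at *
  generalize p 1 = u1 at *
  generalize p 2 = u2 at *
  generalize Complex.I = I at *
  clear e1 e2 hs
  field_simp
  linear_combination (12 * F1 * F2 * Y ^ 2 * N ^ 2 + F1 ^ 2 * (6 * Y ^ 2 * N ^ 2 + 3 * Y ^ 4)) *
    hNN + (F1 ^ 2 * (Y ^ 3 * N ^ 2 + 6 * Y ^ 4 * (u1 * u1c + u2 * u2c) + 3 * Y ^ 5)) * hI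

theorem det_g0' {p : Cn 3} (hp : p ∈ UU) :
    (g0 p).det = (((p 0).im + 2 * nsq p : ℝ) : ℂ) /
      (4 * ((p 0).im : ℂ) * (Nn p : ℂ) ^ 4) := by
  have hN := Nc_ne hp
  have hy := yc_ne hp
  have hNN := Nn_split p
  have hI := Complex.I_mul_I
  have hn : (nsq p : ℂ) = conj (p 1) * p 1 + conj (p 2) * p 2 := by
    unfold nsq
    push_cast
    rw [Complex.normSq_eq_conj_mul_self, Complex.normSq_eq_conj_mul_self]
  have hg : ∀ j k, g0 p j k = Ev j k * (Nn p : ℂ)⁻¹ -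
      nv p j * nvc p k * ((Nn p : ℂ) * (Nn p : ℂ))⁻¹ +
      2 * (mv j * mvc k) * (((p 0).im : ℂ) * ((p 0).im : ℂ))⁻¹ := by
    intro j k
    have : g0 p j k = Th p j k + (1 / 2 : ℂ) * omC p j k := rfl
    rw [this, Th_apply, omC_apply]
    ring
  rw [Matrix.det_fin_three]
  simp only [hg]
  push_cast
  rw [hn]
  simp only [Ev, nv, nvc, mv, mvc, Matrix.cons_val_zero, Matrix.cons_val_one, Matrix.cons_val_two,
    Matrix.tail_cons, Matrix.head_cons, Matrix.vecHead]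
  generalize (Nn p : ℂ) = N at *
  generalize ((p 0).im : ℂ) = Y at *
  generalize conj (p 1) = u1c at *
  generalize conj (p 2) = u2c at *
  generalize p 1 = u1 at *
  generalize p 2 = u2 at *
  generalize Complex.I = I at *
  clear hg hn
  field_simp
  linear_combination (8 * N ^ 2 * Y ^ 4 * (N + Y)) * hNN +
    (4 * N ^ 2 * Y ^ 6 + 8 * N ^ 3 * Y ^ 4 * (u1c * u1 + u2c * u2) - 8 * N ^ 4 * Y ^ 4) * hI

/-! ### bounds for the balanced metric -/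

theorem hf_Gm (p v : Cn 3) :
    hf (Gm p) v = ((f1 (sig p) * qT p v + f2 (sig p) * qC p v : ℝ) : ℂ) := by
  unfold Gm
  rw [hf_add, hf_smul, hf_smul, hf_Th_real, hf_omC_real]
  push_cast
  ring

theorem Gm_ge' {p : Cn 3} (hp : p ∈ UU) (v : Cn 3) :
    1 / 16 * (hf (g0 p) v).re ≤ (hf (Gm p) v).re := by
  rw [hf_g0, hf_Gm, Complex.ofReal_re, Complex.ofReal_re]
  have h1 := qT_ge hp v
  have h2 := qC_nonneg p v
  have h3 := sig_nonneg hp
  have h4 := sig_lt hp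
  set x := sig p
  have hf1 : 1 ≤ f1 x := by unfold f1; nlinarith [sq_nonneg x]
  have hkey : 0 ≤ (f1 x - 1 / 16) * (x / 2) + (f2 x - 1 / 32) := by
    have h5 : 0 < f1 x := by linarith
    have h6 : 0 ≤ f1 x * ((f1 x - 1 / 16) * (x / 2) + (f2 x - 1 / 32)) := by
      have e : f1 x * ((f1 x - 1 / 16) * (x / 2) + (f2 x - 1 / 32)) =
          f1 x * (f1 x - 1 / 16) * (x / 2) + (f1 x * f2 x - f1 x / 32) := by ring
      rw [e, f1_f2]
      unfold f1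
      have a1 : 0 ≤ x ^ 2 := by positivity
      have a2 : 0 ≤ x ^ 3 := by positivity
      have a3 : 0 ≤ x ^ 5 := by positivity
      have a4 : x ^ 2 ≤ 1 := by nlinarith
      have a5 : x ^ 3 ≤ 1 := by
        have : x ^ 3 = x * x ^ 2 := by ring
        nlinarith
      have e2 : (1 + 15 * x ^ 2) * (1 + 15 * x ^ 2 - 1 / 16) * (x / 2) +
          (1 - 10 * x ^ 3 - 90 * x ^ 5 - (1 + 15 * x ^ 2) / 32) =
          1 + x / 2 + 5 * x ^ 3 + 45 / 2 * x ^ 5 - 1 / 32 * (1 + x + 15 * x ^ 2 + 15 * x ^ 3) := by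
        ring
      rw [e2]
      linarith
    exact nonneg_of_mul_nonneg_right h6 h5
  have h7 : (f1 x - 1 / 16) * (x / 2 * qC p v) ≤ (f1 x - 1 / 16) * qT p v :=
    mul_le_mul_of_nonneg_left h1 (by linarith)
  have h8 := mul_nonneg hkey h2
  linarith

theorem bdd_Gm' : ∃ C : ℝ, Bdd Gm C := by
  refine ⟨202, fun p hp v => ?_⟩
  rw [hf_g0, hf_Gm, Complex.ofReal_re, Complex.ofReal_re]
  have h1 := qT_nonneg hp v
  have h2 := qC_nonneg p v
  have h3 := sig_nonneg hp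
  have h4 := sig_lt hp
  set x := sig p
  have a1 : 0 ≤ x ^ 2 := by positivity
  have a2 : 0 ≤ x ^ 3 := by positivity
  have a3 : 0 ≤ x ^ 5 := by positivity
  have a4 : x ^ 2 ≤ 1 := by nlinarith
  have a5 : x ^ 3 ≤ 1 := by
    have : x ^ 3 = x * x ^ 2 := by ring
    nlinarith
  have a6 : x ^ 5 ≤ 1 := by
    have : x ^ 5 = x ^ 2 * x ^ 3 := by ring
    nlinarith
  have hf1 : 1 ≤ f1 x := by unfold f1; linarith
  have hf1' : f1 x ≤ 16 := by unfold f1; linarith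
  have h5 : 0 < f1 x := by linarith
  have hf2 : |f2 x| ≤ 101 := by
    have h6 : f2 x = (1 - 10 * x ^ 3 - 90 * x ^ 5) / f1 x := rfl
    rw [h6, abs_div, abs_of_pos h5, div_le_iff₀ h5, abs_le]
    constructor <;> nlinarith
  rw [abs_le] at hf2 ⊢
  constructor <;> nlinarith [mul_nonneg h1 h5.le]

end Pool.Agent.TH609.KG
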