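import Pool.Agent.TH609.KG.Act

set_option autoImplicit false

/-!
# Job 118 (MP_38461c_gt), part 4: equivariance and rotation invariance
-/

open scoped Manifold ContDiff Topology ComplexConjugate MatrixGroups UpperHalfPlane Matrix
open MeasureTheory Set Filter

namespace Pool.Agent.TH609.KG
open Pool.Agent.TH598.KG
open Pool.Agent.W549.CY (Cn dz dzbar)
open Pool.Agent.W711.KC (jj nn jj_ne im_mob)

theorem jj_sub_conj (g : SL(2, ℝ)) (z : ℂ) :
    jj g z - conj (jj g z) = 2 * Complex.I * (g 1 0 : ℂ) * (z.im : ℂ) := by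
  apply Complex.ext <;> simp [jj]
  ring

theorem equi_Th' (Γ : Subgroup SL(2, ℝ)) : Equi Γ Th := by
  intro g _ p hp v
  have hj : jj g (p 0) ≠ 0 := jj_ne g hp
  have hjc : conj (jj g (p 0)) ≠ 0 := (map_ne_zero _).2 hj
  have hy := yc_ne hp
  have hN := Nc_ne hp
  have hy' : (((Fa g p) 0).im : ℂ) = ((p 0).im : ℂ) / (jj g (p 0) * conj (jj g (p 0))) := by
    rw [im_Fa g hp]
    push_cast
    rw [Complex.mul_conj]
  have hN' : (Nn (Fa g p) : ℂ) = (Nn p : ℂ) / (jj g (p 0) * conj (jj g (p 0))) := by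
    rw [Nn_Fa g hp]
    push_cast
    rw [Complex.mul_conj]
  have hNN : (Nn p : ℂ) = ((p 0).im : ℂ) + (p 1 * conj (p 1) + p 2 * conj (p 2)) := by
    unfold Nn nsq
    push_cast
    rw [Complex.mul_conj, Complex.mul_conj]
  have hjj := jj_sub_conj g (p 0)
  rw [hf_Th, hf_Th, conj_nd, conj_nd, hy', hN', fderiv_Fa' g hp]
  have hp1 : (Fa g p) 1 = p 1 / jj g (p 0) := rfl
  have hp2 : (Fa g p) 2 = p 2 / jj g (p 0) := rfl
  unfold nd
  rw [hp1, hp2]
  simp only [Matrix.cons_val_zero, Matrix.cons_val_one, Matrix.cons_val_two, Matrix.tail_cons,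
    Matrix.head_cons, Matrix.cons_val, map_sub, map_div₀, map_mul, map_pow, Complex.conj_ofReal]
  generalize conj (jj g (p 0)) = jc at *
  generalize jj g (p 0) = j at *
  generalize conj (p 1) = u1c at *
  generalize conj (p 2) = u2c at *
  generalize conj (v 0) = v0c at *
  generalize conj (v 1) = v1c at *
  generalize conj (v 2) = v2c at *
  generalize p 1 = u1 at *
  generalize p 2 = u2 at *
  generalize v 0 = v0 at *
  generalize v 1 = v1 at *
  generalize v 2 = v2 at *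
  generalize ((p 0).im : ℂ) = Y at *
  generalize (Nn p : ℂ) = N at *
  generalize ((g 1 0 : ℝ) : ℂ) = c at *
  have hII := Complex.I_mul_I
  generalize Complex.I = I at *
  clear hy' hN' hp1 hp2 hp
  -- the transformed derivative of `N`
  have e1 : -I / 2 * (v0 / j ^ 2) + (u1c / jc * (v1 / j - c * u1 * v0 / j ^ 2) +
      u2c / jc * (v2 / j - c * u2 * v0 / j ^ 2)) =
      (-I / 2 * v0 + (u1c * v1 + u2c * v2) - c * v0 / j * N) / (j * jc) := by
    rw [hNN]
    field_simp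
    linear_combination (I * v0) * hjj + (2 * c * v0 * Y) * hII
  have e2 : I / 2 * (v0c / jc ^ 2) + (u1 / j * (v1c / jc - c * u1c * v0c / jc ^ 2) +
      u2 / j * (v2c / jc - c * u2c * v0c / jc ^ 2)) =
      (I / 2 * v0c + (u1 * v1c + u2 * v2c) - c * v0c / jc * N) / (j * jc) := by
    rw [hNN]
    field_simp
    linear_combination (I * v0c) * hjj + (2 * c * v0c * Y) * hII
  rw [e1, e2]
  obtain ⟨la, hla⟩ : ∃ la, la = c * v0 / j := ⟨_, rfl⟩
  obtain ⟨mu, hmu⟩ : ∃ mu, mu = c * v0c / jc := ⟨_, rfl⟩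
  have key : I / 2 * (la * v0c - mu * v0) = la * mu * Y := by
    rw [hla, hmu]
    field_simp
    linear_combination (-I * c * v0 * v0c) * hjj + (-2 * c ^ 2 * v0 * v0c * Y) * hII
  have h3 : ((v1 / j - c * u1 * v0 / j ^ 2) * (v1c / jc - c * u1c * v0c / jc ^ 2) +
      (v2 / j - c * u2 * v0 / j ^ 2) * (v2c / jc - c * u2c * v0c / jc ^ 2)) *
      (N / (j * jc))⁻¹ = ((v1 - la * u1) * (v1c - mu * u1c) + (v2 - la * u2) * (v2c - mu * u2c)) *
        N⁻¹ := by
    rw [hla, hmu]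
    field_simp
  have h5 : v0 / j ^ 2 * (v0c / jc ^ 2) / 4 * (Y / (j * jc) * (Y / (j * jc)))⁻¹ =
      v0 * v0c / 4 * (Y * Y)⁻¹ := by
    field_simp
  have h4 : (-I / 2 * v0 + (u1c * v1 + u2c * v2) - c * v0 / j * N) / (j * jc) *
      ((I / 2 * v0c + (u1 * v1c + u2 * v2c) - c * v0c / jc * N) / (j * jc)) *
      (N / (j * jc) * (N / (j * jc)))⁻¹ =
      (-I / 2 * v0 + (u1c * v1 + u2c * v2) - la * N) *
      (I / 2 * v0c + (u1 * v1c + u2 * v2c) - mu * N) * (N * N)⁻¹ := by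
    rw [hla, hmu]
    field_simp
  rw [h3, h4, h5]
  field_simp
  linear_combination (-16 * N * Y ^ 2) * key + (16 * N * Y ^ 2 * la * mu) * hNN

theorem equi_omC' (Γ : Subgroup SL(2, ℝ)) : Equi Γ omC := by
  intro g _ p hp v
  have hj : jj g (p 0) ≠ 0 := jj_ne g hp
  have hjc : conj (jj g (p 0)) ≠ 0 := (map_ne_zero _).2 hj
  have hy := yc_ne hp
  have hy' : (((Fa g p) 0).im : ℂ) = ((p 0).im : ℂ) / (jj g (p 0) * conj (jj g (p 0))) := by
    rw [im_Fa g hp]
    push_cast
    rw [Complex.mul_conj]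
  rw [hf_omC, hf_omC, hy', fderiv_Fa' g hp]
  simp only [Matrix.cons_val_zero, map_div₀, map_pow]
  field_simp

/-! ### rotations -/

section rotations
variable {W : Matrix (Fin 2) (Fin 2) ℂ} (hW : W ∈ Matrix.unitaryGroup (Fin 2) ℂ)
include hW

theorem ru_inner (a b : Cn 3) : conj (ru W a 1) * ru W b 1 + conj (ru W a 2) * ru W b 2 =
    conj (a 1) * b 1 + conj (a 2) * b 2 := by
  have h := Matrix.mem_unitaryGroup_iff'.1 hW
  have h00 := congrFun (congrFun h 0) 0
  have h01 := congrFun (congrFun h 0) 1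
  have h10 := congrFun (congrFun h 1) 0
  have h11 := congrFun (congrFun h 1) 1
  simp only [Matrix.mul_apply, Fin.sum_univ_two, Matrix.star_apply, Matrix.one_apply_eq,
    Matrix.one_apply, Fin.isValue, zero_ne_one, one_ne_zero, if_false, if_true] at h00 h01 h10 h11
  have hs : ∀ z : ℂ, star z = conj z := fun z => rfl
  simp only [hs] at h00 h01 h10 h11
  have e1 : ∀ q : Cn 3, ru W q 1 = W 0 0 * q 1 + W 0 1 * q 2 := fun q => rfl
  have e2 : ∀ q : Cn 3, ru W q 2 = W 1 0 * q 1 + W 1 1 * q 2 := fun q => rfl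
  simp only [e1, e2, map_add, map_mul]
  linear_combination (conj (a 1) * b 1) * h00 + (conj (a 1) * b 2) * h01 +
    (conj (a 2) * b 1) * h10 + (conj (a 2) * b 2) * h11

omit hW in
theorem ru_zero (q : Cn 3) : ru W q 0 = q 0 := rfl

theorem nsq_ru (p : Cn 3) : nsq (ru W p) = nsq p := by
  have h := ru_inner hW p p
  have e : ∀ q : Cn 3, (nsq q : ℂ) = conj (q 1) * q 1 + conj (q 2) * q 2 := by
    intro q
    unfold nsq
    push_cast
    rw [Complex.normSq_eq_conj_mul_self, Complex.normSq_eq_conj_mul_self]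
  rw [← e, ← e] at h
  exact_mod_cast h

theorem Nn_ru (p : Cn 3) : Nn (ru W p) = Nn p := by
  unfold Nn
  rw [nsq_ru hW, ru_zero]

theorem nd_ru (p v : Cn 3) : nd (ru W p) (ru W v) = nd p v := by
  unfold nd
  rw [ru_inner hW, ru_zero]

theorem qT_ru (p v : Cn 3) : qT (ru W p) (ru W v) = qT p v := by
  unfold qT
  have h := nsq_ru hW v
  unfold nsq at h
  rw [nd_ru hW, Nn_ru hW, h, ru_zero, ru_zero]

theorem sig_ru (p : Cn 3) : sig (ru W p) = sig p := by
  unfold sig
  rw [nsq_ru hW, Nn_ru hW]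

end rotations

theorem rotInv_Th' : RotInv Th := by
  intro W hW p _ v
  rw [hf_Th_real, hf_Th_real, qT_ru hW]

theorem rotInv_omC' : RotInv omC := by
  intro W hW p _ v
  rw [hf_omC_real, hf_omC_real]
  rfl

end Pool.Agent.TH609.KG
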