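import Pool.Agent.TH609.KG.HW

set_option autoImplicit false

/-!
# Job 118 (MP_38461c_gt), part 2: index formulas for the forms and their derivatives
-/

open scoped Manifold ContDiff Topology ComplexConjugate MatrixGroups UpperHalfPlane Matrix
open MeasureTheory Set Filter

namespace Pool.Agent.TH609.KG
open Pool.Agent.TH598.KG
open Pool.Agent.W549.CY (Cn dz dzbar)
open Pool.Agent.W711.KC (jj nn)

/-- the derivative of `N` -/
noncomputable def nv (p : Cn 3) : Fin 3 → ℂ := ![-Complex.I / 2, conj (p 1), conj (p 2)]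
/-- the derivative of `y` -/
noncomputable def mv : Fin 3 → ℂ := ![-Complex.I / 2, 0, 0]
/-- the second derivative of `N` -/
noncomputable def Ev : Fin 3 → Fin 3 → ℂ := ![![0, 0, 0], ![0, 1, 0], ![0, 0, 1]]

theorem fin3 (j : Fin 3) : j = 0 ∨ j = 1 ∨ j = 2 := by revert j; decide

theorem isOpen_UU : IsOpen UU :=
  isOpen_lt continuous_const (Complex.continuous_im.comp (continuous_apply 0))

theorem nsq_nonneg (p : Cn 3) : 0 ≤ nsq p :=
  add_nonneg (Complex.normSq_nonneg _) (Complex.normSq_nonneg _)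

theorem Nn_pos' {p : Cn 3} (hp : p ∈ UU) : 0 < Nn p := by
  have h : 0 < (p 0).im := hp
  have := nsq_nonneg p
  unfold Nn
  linarith

theorem Nc_ne {p : Cn 3} (hp : p ∈ UU) : (Nn p : ℂ) ≠ 0 := by
  exact_mod_cast (Nn_pos' hp).ne'

theorem yc_ne {p : Cn 3} (hp : p ∈ UU) : ((p 0).im : ℂ) ≠ 0 := by
  have h : 0 < (p 0).im := hp
  exact_mod_cast h.ne'

theorem im_eq (z : ℂ) : (z.im : ℂ) = (z - conj z) * (-Complex.I / 2) := by
  apply Complex.ext
  · simp
    ring
  · simp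

theorem Nc_eq (p : Cn 3) : (Nn p : ℂ) = (p 0 - conj (p 0)) * (-Complex.I / 2) +
    (conj (p 1) * p 1 + conj (p 2) * p 2) := by
  unfold Nn nsq
  push_cast
  rw [im_eq, Complex.normSq_eq_conj_mul_self, Complex.normSq_eq_conj_mul_self]

/-- the conjugate vectors -/
noncomputable def nvc (p : Cn 3) : Fin 3 → ℂ := ![Complex.I / 2, p 1, p 2]
noncomputable def mvc : Fin 3 → ℂ := ![Complex.I / 2, 0, 0]

theorem conj_two : conj (2 : ℂ) = 2 := Complex.conj_ofNat 2

theorem conj_nv (p : Cn 3) (k : Fin 3) : conj (nv p k) = nvc p k := by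
  rcases fin3 k with e | e | e <;> subst e <;> simp [nv, nvc, conj_two]

theorem conj_mv (k : Fin 3) : conj (mv k) = mvc k := by
  rcases fin3 k with e | e | e <;> subst e <;> simp [mv, mvc, conj_two]

theorem conj_nvc (p : Cn 3) (k : Fin 3) : conj (nvc p k) = nv p k := by
  rw [← conj_nv, Complex.conj_conj]

theorem conj_mvc (k : Fin 3) : conj (mvc k) = mv k := by
  rw [← conj_mv, Complex.conj_conj]

/-- index formula for `Θ` -/
theorem Th_apply (p : Cn 3) (j k : Fin 3) : Th p j k =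
    Ev j k * (Nn p : ℂ)⁻¹ - nv p j * nvc p k * ((Nn p : ℂ) * (Nn p : ℂ))⁻¹ +
      mv j * mvc k * (((p 0).im : ℂ) * ((p 0).im : ℂ))⁻¹ := by
  have hII2 : Complex.I ^ 2 = -1 := Complex.I_sq
  rcases fin3 j with e | e | e <;> rcases fin3 k with e' | e' | e' <;> subst e <;> subst e' <;>
    simp [Th, Ev, nv, mv, nvc, mvc] <;> ring_nf <;> simp [hII2] <;> ring

theorem omC_apply (p : Cn 3) (j k : Fin 3) : omC p j k =
    2 * (mv j * mvc k) * (((p 0).im : ℂ) * ((p 0).im : ℂ))⁻¹ := by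
  have hII2 : Complex.I ^ 2 = -1 := Complex.I_sq
  rcases fin3 j with e | e | e <;> rcases fin3 k with e' | e' | e' <;> subst e <;> subst e' <;>
    simp [omC, mv, mvc] <;> ring_nf <;> simp [hII2] <;> ring

/-! ### derivatives -/

theorem HW_y (p : Cn 3) : HW (fun q => ((q 0).im : ℂ)) mv mvc p := by
  have h1 := ((HW.coord 0 p).sub (HW.conj_coord 0 p)).mul (HW.const (-Complex.I / 2) p)
  have h2 : (fun q : Cn 3 => ((q 0).im : ℂ)) = fun q : Cn 3 => (q 0 - conj (q 0)) *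
      (-Complex.I / 2) := funext fun q => im_eq _
  rw [h2]
  refine h1.congr_of (fun i => ?_) (fun i => ?_) <;>
    rcases fin3 i with e | e | e <;> subst e <;> simp [mv, mvc] <;> ring

theorem HW_N (p : Cn 3) : HW (fun q => (Nn q : ℂ)) (nv p) (nvc p) p := by
  have h1 := (((HW.coord 0 p).sub (HW.conj_coord 0 p)).mul (HW.const (-Complex.I / 2) p)).add
    (((HW.conj_coord 1 p).mul (HW.coord 1 p)).add ((HW.conj_coord 2 p).mul (HW.coord 2 p)))
  have h2 : (fun q : Cn 3 => (Nn q : ℂ)) = fun q : Cn 3 => (q 0 - conj (q 0)) *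
      (-Complex.I / 2) + (conj (q 1) * q 1 + conj (q 2) * q 2) := funext fun q => Nc_eq _
  rw [h2]
  refine h1.congr_of (fun i => ?_) (fun i => ?_) <;>
    rcases fin3 i with e | e | e <;> subst e <;> simp [nv, nvc] <;> ring

theorem HW_nv (p : Cn 3) (j : Fin 3) :
    HW (fun q => nv q j) (fun _ => 0) (fun i => Ev i j) p := by
  rcases fin3 j with e | e | e <;> subst e
  · refine (HW.const (-Complex.I / 2) p).congr_of (fun i => rfl) (fun i => ?_)
    rcases fin3 i with e | e | e <;> subst e <;> simp [Ev]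
  · refine (HW.conj_coord 1 p).congr_of (fun i => rfl) (fun i => ?_)
    rcases fin3 i with e | e | e <;> subst e <;> simp [Ev]
  · refine (HW.conj_coord 2 p).congr_of (fun i => rfl) (fun i => ?_)
    rcases fin3 i with e | e | e <;> subst e <;> simp [Ev]

theorem HW_nvc (p : Cn 3) (j : Fin 3) :
    HW (fun q => nvc q j) (fun i => Ev i j) (fun _ => 0) p := by
  rcases fin3 j with e | e | e <;> subst e
  · refine (HW.const (Complex.I / 2) p).congr_of (fun i => ?_) (fun i => rfl)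
    rcases fin3 i with e | e | e <;> subst e <;> simp [Ev]
  · refine (HW.coord 1 p).congr_of (fun i => ?_) (fun i => rfl)
    rcases fin3 i with e | e | e <;> subst e <;> simp [Ev]
  · refine (HW.coord 2 p).congr_of (fun i => ?_) (fun i => rfl)
    rcases fin3 i with e | e | e <;> subst e <;> simp [Ev]

theorem HW_Ninv {p : Cn 3} (hp : p ∈ UU) :
    HW (fun q => (Nn q : ℂ)⁻¹) (fun i => -nv p i / (Nn p : ℂ) ^ 2)
      (fun i => -nvc p i / (Nn p : ℂ) ^ 2) p := (HW_N p).inv (Nc_ne hp)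

theorem HW_Ninv2 {p : Cn 3} (hp : p ∈ UU) :
    HW (fun q => ((Nn q : ℂ) * (Nn q : ℂ))⁻¹) (fun i => -(2 * nv p i) / (Nn p : ℂ) ^ 3)
      (fun i => -(2 * nvc p i) / (Nn p : ℂ) ^ 3) p := by
  have h0 := Nc_ne hp
  refine (((HW_N p).mul (HW_N p)).inv (mul_ne_zero h0 h0)).congr_of (fun i => ?_) (fun i => ?_)
  all_goals
    field_simp
    ring

theorem HW_yinv {p : Cn 3} (hp : p ∈ UU) :
    HW (fun q => ((q 0).im : ℂ)⁻¹) (fun i => -mv i / ((p 0).im : ℂ) ^ 2)
      (fun i => -mvc i / ((p 0).im : ℂ) ^ 2) p := (HW_y p).inv (yc_ne hp)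

theorem HW_yinv2 {p : Cn 3} (hp : p ∈ UU) :
    HW (fun q => (((q 0).im : ℂ) * ((q 0).im : ℂ))⁻¹) (fun i => -(2 * mv i) / ((p 0).im : ℂ) ^ 3)
      (fun i => -(2 * mvc i) / ((p 0).im : ℂ) ^ 3) p := by
  have h0 := yc_ne hp
  refine (((HW_y p).mul (HW_y p)).inv (mul_ne_zero h0 h0)).congr_of (fun i => ?_) (fun i => ?_)
  all_goals
    field_simp
    ring

/-- the derivative of `Θ` -/
theorem HW_Th {p : Cn 3} (hp : p ∈ UU) (j k : Fin 3) : ∃ b, HW (fun q => Th q j k)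
    (fun i => -(Ev j k * nv p i + Ev i k * nv p j) * ((Nn p : ℂ) ^ 2)⁻¹ +
      2 * nv p i * nv p j * nvc p k * ((Nn p : ℂ) ^ 3)⁻¹ -
      2 * mv i * mv j * mvc k * (((p 0).im : ℂ) ^ 3)⁻¹) b p := by
  have h1 := (((HW_Ninv hp).const_mul (Ev j k)).sub
    (((HW_nv p j).mul (HW_nvc p k)).mul (HW_Ninv2 hp))).add
    ((HW_yinv2 hp).const_mul (mv j * mvc k))
  have h2 : (fun q => Th q j k) = fun q => Ev j k * (Nn q : ℂ)⁻¹ -
      nv q j * nvc q k * ((Nn q : ℂ) * (Nn q : ℂ))⁻¹ +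
      mv j * mvc k * (((q 0).im : ℂ) * ((q 0).im : ℂ))⁻¹ := funext fun q => Th_apply q j k
  rw [h2]
  refine ⟨_, h1.congr_of (fun i => ?_) (fun i => rfl)⟩
  have hN := Nc_ne hp
  have hy := yc_ne hp
  field_simp
  ring

theorem HW_omC {p : Cn 3} (hp : p ∈ UU) (j k : Fin 3) : ∃ b, HW (fun q => omC q j k)
    (fun i => -4 * mv i * mv j * mvc k * (((p 0).im : ℂ) ^ 3)⁻¹) b p := by
  have h1 := (HW_yinv2 hp).const_mul (2 * (mv j * mvc k))
  have h2 : (fun q => omC q j k) = fun q : Cn 3 => 2 * (mv j * mvc k) *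
      (((q 0).im : ℂ) * ((q 0).im : ℂ))⁻¹ := funext fun q => omC_apply q j k
  rw [h2]
  refine ⟨_, h1.congr_of (fun i => ?_) (fun i => rfl)⟩
  have hy := yc_ne hp
  field_simp
  ring

theorem closed_Th' : Closed Th := by
  intro p hp i j k
  obtain ⟨b, h1⟩ := HW_Th hp j k
  obtain ⟨b', h2⟩ := HW_Th hp i k
  rw [h1.dz, h2.dz]
  ring

theorem closed_omC' : Closed omC := by
  intro p hp i j k
  obtain ⟨b, h1⟩ := HW_omC hp j k
  obtain ⟨b', h2⟩ := HW_omC hp i k
  rw [h1.dz, h2.dz]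
  ring

/-! ### smoothness -/

theorem smooth_N : ContDiff ℝ ∞ (fun p : Cn 3 => (Nn p : ℂ)) := by
  have h2 : (fun q : Cn 3 => (Nn q : ℂ)) = fun q : Cn 3 => (q 0 - conj (q 0)) *
      (-Complex.I / 2) + (conj (q 1) * q 1 + conj (q 2) * q 2) := funext fun q => Nc_eq _
  rw [h2]
  have hc : ∀ k : Fin 3, ContDiff ℝ ∞ (fun q : Cn 3 => q k) := fun k => contDiff_apply ℝ ℂ k
  have hcc : ∀ k : Fin 3, ContDiff ℝ ∞ (fun q : Cn 3 => conj (q k)) := fun k =>
    Complex.conjCLE.contDiff.comp (hc k)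
  exact (((hc 0).sub (hcc 0)).mul contDiff_const).add
    (((hcc 1).mul (hc 1)).add ((hcc 2).mul (hc 2)))

theorem smooth_y : ContDiff ℝ ∞ (fun p : Cn 3 => ((p 0).im : ℂ)) := by
  have hc : ContDiff ℝ ∞ (fun q : Cn 3 => q 0) := contDiff_apply ℝ ℂ 0
  exact Complex.ofRealCLM.contDiff.comp (Complex.imCLM.contDiff.comp hc)

theorem smooth_nv (k : Fin 3) : ContDiff ℝ ∞ (fun p : Cn 3 => nv p k) := by
  have hcc : ∀ k : Fin 3, ContDiff ℝ ∞ (fun q : Cn 3 => conj (q k)) := fun k =>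
    Complex.conjCLE.contDiff.comp (contDiff_apply ℝ ℂ k)
  rcases fin3 k with e | e | e <;> subst e
  · exact contDiff_const
  · exact hcc 1
  · exact hcc 2

theorem smooth_nvc (k : Fin 3) : ContDiff ℝ ∞ (fun p : Cn 3 => nvc p k) := by
  rcases fin3 k with e | e | e <;> subst e
  · exact contDiff_const
  · exact contDiff_apply ℝ ℂ 1
  · exact contDiff_apply ℝ ℂ 2

theorem contDiffOn_Th' (j k : Fin 3) : ContDiffOn ℝ ∞ (fun p => Th p j k) UU := by
  have h2 : (fun q => Th q j k) = fun q => Ev j k * (Nn q : ℂ)⁻¹ -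
      nv q j * nvc q k * ((Nn q : ℂ) * (Nn q : ℂ))⁻¹ +
      mv j * mvc k * (((q 0).im : ℂ) * ((q 0).im : ℂ))⁻¹ := funext fun q => Th_apply q j k
  rw [h2]
  have hN := smooth_N.contDiffOn (s := UU)
  have hy := smooth_y.contDiffOn (s := UU)
  have h3 := (smooth_nv j).contDiffOn (s := UU)
  have h4 := (smooth_nvc k).contDiffOn (s := UU)
  refine ((contDiffOn_const.mul (hN.inv fun p hp => Nc_ne hp)).sub
    ((h3.mul h4).mul ((hN.mul hN).inv fun p hp => mul_ne_zero (Nc_ne hp) (Nc_ne hp)))).add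
    (contDiffOn_const.mul ((hy.mul hy).inv fun p hp => mul_ne_zero (yc_ne hp) (yc_ne hp)))

theorem contDiffOn_omC' (j k : Fin 3) : ContDiffOn ℝ ∞ (fun p => omC p j k) UU := by
  have h2 : (fun q => omC q j k) = fun q : Cn 3 => 2 * (mv j * mvc k) *
      (((q 0).im : ℂ) * ((q 0).im : ℂ))⁻¹ := funext fun q => omC_apply q j k
  rw [h2]
  have hy := smooth_y.contDiffOn (s := UU)
  exact contDiffOn_const.mul ((hy.mul hy).inv fun p hp => mul_ne_zero (yc_ne hp) (yc_ne hp))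

theorem smooth_nsq : ContDiff ℝ ∞ nsq := by
  have hc : ∀ k : Fin 3, ContDiff ℝ ∞ (fun q : Cn 3 => q k) := fun k => contDiff_apply ℝ ℂ k
  have h1 : nsq = fun p : Cn 3 => ((p 1).re * (p 1).re + (p 1).im * (p 1).im) +
      ((p 2).re * (p 2).re + (p 2).im * (p 2).im) := by
    funext p
    simp [nsq, Complex.normSq_apply]
  rw [h1]
  have hre : ∀ k : Fin 3, ContDiff ℝ ∞ (fun q : Cn 3 => (q k).re) := fun k =>
    Complex.reCLM.contDiff.comp (hc k)
  have him : ∀ k : Fin 3, ContDiff ℝ ∞ (fun q : Cn 3 => (q k).im) := fun k =>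
    Complex.imCLM.contDiff.comp (hc k)
  exact (((hre 1).mul (hre 1)).add ((him 1).mul (him 1))).add
    (((hre 2).mul (hre 2)).add ((him 2).mul (him 2)))

theorem contDiffOn_sig' : ContDiffOn ℝ ∞ sig UU := by
  have hc : ContDiff ℝ ∞ (fun q : Cn 3 => (q 0).im) :=
    Complex.imCLM.contDiff.comp (contDiff_apply ℝ ℂ 0)
  exact smooth_nsq.contDiffOn.div ((hc.add smooth_nsq).contDiffOn) fun p hp => (Nn_pos' hp).ne'

end Pool.Agent.TH609.KG
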