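import Pool.Agent.TH598.KG.Base

set_option autoImplicit false

/-!
# Job 118 (MP_38461c_gt), part 1: calculus with Wirtinger derivatives
-/

open scoped Manifold ContDiff Topology ComplexConjugate MatrixGroups UpperHalfPlane Matrix
open MeasureTheory Set Filter

namespace Pool.Agent.TH609.KG
open Pool.Agent.TH598.KG
open Pool.Agent.W549.CY (Cn dz dzbar)
open Pool.Agent.W711.KC (jj nn)

/-- the real linear map with given Wirtinger components -/
noncomputable def Wl (a b : Fin 3 → ℂ) : Cn 3 →L[ℝ] ℂ :=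
  ∑ j, a j • (ContinuousLinearMap.proj j : Cn 3 →L[ℝ] ℂ) +
    ∑ j, b j • (Complex.conjCLE : ℂ →L[ℝ] ℂ).comp (ContinuousLinearMap.proj j : Cn 3 →L[ℝ] ℂ)

theorem Wl_apply (a b : Fin 3 → ℂ) (v : Cn 3) :
    Wl a b v = ∑ j, a j * v j + ∑ j, b j * conj (v j) := by
  simp [Wl, Fin.sum_univ_three]

/-- `df = ∑ a_j dz_j + ∑ b_j dz̄_j` at `p` -/
def HW (f : Cn 3 → ℂ) (a b : Fin 3 → ℂ) (p : Cn 3) : Prop := HasFDerivAt f (Wl a b) p

namespace HW
variable {f g : Cn 3 → ℂ} {a b c d : Fin 3 → ℂ} {p : Cn 3}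

theorem dz (h : HW f a b p) (j : Fin 3) : Pool.Agent.W549.CY.dz j f p = a j := by
  unfold Pool.Agent.W549.CY.dz
  rw [HasFDerivAt.fderiv h, Wl_apply, Wl_apply]
  have h1 : ∑ i, a i * (Pi.single j (1 : ℂ) : Cn 3) i = a j := by simp [Pi.single_apply]
  have h2 : ∑ i, b i * conj ((Pi.single j (1 : ℂ) : Cn 3) i) = b j := by
    rw [Finset.sum_eq_single j] <;> simp +contextual
  have h3 : ∑ i, a i * (Pi.single j Complex.I : Cn 3) i = a j * Complex.I := by
    simp [Pi.single_apply]
  have h4 : ∑ i, b i * conj ((Pi.single j Complex.I : Cn 3) i) = -(b j * Complex.I) := by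
    rw [Finset.sum_eq_single j] <;> simp +contextual
  rw [h1, h2, h3, h4]
  linear_combination (-(1 / 2) * (a j - b j)) * Complex.I_mul_I

theorem dzbar (h : HW f a b p) (j : Fin 3) : Pool.Agent.W549.CY.dzbar j f p = b j := by
  unfold Pool.Agent.W549.CY.dzbar
  rw [HasFDerivAt.fderiv h, Wl_apply, Wl_apply]
  have h1 : ∑ i, a i * (Pi.single j (1 : ℂ) : Cn 3) i = a j := by simp [Pi.single_apply]
  have h2 : ∑ i, b i * conj ((Pi.single j (1 : ℂ) : Cn 3) i) = b j := by
    rw [Finset.sum_eq_single j] <;> simp +contextual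
  have h3 : ∑ i, a i * (Pi.single j Complex.I : Cn 3) i = a j * Complex.I := by
    simp [Pi.single_apply]
  have h4 : ∑ i, b i * conj ((Pi.single j Complex.I : Cn 3) i) = -(b j * Complex.I) := by
    rw [Finset.sum_eq_single j] <;> simp +contextual
  rw [h1, h2, h3, h4]
  linear_combination ((1 / 2) * (a j - b j)) * Complex.I_mul_I

theorem congr_of (h : HW f a b p) (h1 : ∀ i, a i = c i) (h2 : ∀ i, b i = d i) : HW f c d p := by
  have e1 : a = c := funext h1
  have e2 : b = d := funext h2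
  rw [← e1, ← e2]; exact h

theorem congr_ev (h : HW f a b p) (hfg : g =ᶠ[𝓝 p] f) : HW g a b p :=
  HasFDerivAt.congr_of_eventuallyEq h hfg

theorem const (k : ℂ) (p : Cn 3) : HW (fun _ => k) (fun _ => 0) (fun _ => 0) p := by
  refine (hasFDerivAt_const k p).congr_fderiv ?_
  ext v
  simp [Wl_apply]

theorem coord (k : Fin 3) (p : Cn 3) :
    HW (fun q => q k) (fun i => if i = k then 1 else 0) (fun _ => 0) p := by
  have h1 : HasFDerivAt (fun q : Cn 3 => q k) (ContinuousLinearMap.proj k : Cn 3 →L[ℝ] ℂ) p :=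
    (ContinuousLinearMap.proj k : Cn 3 →L[ℝ] ℂ).hasFDerivAt
  refine h1.congr_fderiv ?_
  ext v
  simp [Wl_apply]

theorem conj_coord (k : Fin 3) (p : Cn 3) :
    HW (fun q => conj (q k)) (fun _ => 0) (fun i => if i = k then 1 else 0) p := by
  have h1 : HasFDerivAt (fun q : Cn 3 => conj (q k))
      ((Complex.conjCLE : ℂ →L[ℝ] ℂ).comp (ContinuousLinearMap.proj k : Cn 3 →L[ℝ] ℂ)) p :=
    ((Complex.conjCLE : ℂ →L[ℝ] ℂ).comp
      (ContinuousLinearMap.proj k : Cn 3 →L[ℝ] ℂ)).hasFDerivAt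
  refine h1.congr_fderiv ?_
  ext v
  simp [Wl_apply]

theorem add (hf : HW f a b p) (hg : HW g c d p) :
    HW (fun q => f q + g q) (fun i => a i + c i) (fun i => b i + d i) p := by
  refine (HasFDerivAt.add hf hg).congr_fderiv ?_
  ext v
  simp only [add_apply, Wl_apply, Fin.sum_univ_three]
  ring

theorem sub (hf : HW f a b p) (hg : HW g c d p) :
    HW (fun q => f q - g q) (fun i => a i - c i) (fun i => b i - d i) p := by
  refine (HasFDerivAt.sub hf hg).congr_fderiv ?_
  ext v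
  simp only [sub_apply, Wl_apply, Fin.sum_univ_three]
  ring

theorem neg (hf : HW f a b p) : HW (fun q => -f q) (fun i => -a i) (fun i => -b i) p := by
  refine (HasFDerivAt.neg hf).congr_fderiv ?_
  ext v
  simp only [neg_apply, Wl_apply, Fin.sum_univ_three]
  ring

theorem mul (hf : HW f a b p) (hg : HW g c d p) :
    HW (fun q => f q * g q) (fun i => f p * c i + a i * g p) (fun i => f p * d i + b i * g p)
      p := by
  refine (HasFDerivAt.mul hf hg).congr_fderiv ?_
  ext v
  simp only [add_apply, smul_apply, Wl_apply, Fin.sum_univ_three, smul_eq_mul]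
  ring

theorem const_mul (k : ℂ) (hf : HW f a b p) :
    HW (fun q => k * f q) (fun i => k * a i) (fun i => k * b i) p := by
  refine ((HW.const k p).mul hf).congr_of (fun i => ?_) (fun i => ?_) <;> ring

theorem inv (hf : HW f a b p) (h0 : f p ≠ 0) :
    HW (fun q => (f q)⁻¹) (fun i => -a i / f p ^ 2) (fun i => -b i / f p ^ 2) p := by
  have h1 : HasFDerivAt (fun x : ℂ => x⁻¹) _ (f p) := (hasFDerivAt_inv h0).restrictScalars ℝ
  refine (h1.comp p hf).congr_fderiv ?_
  ext v
  simp [Wl_apply, Fin.sum_univ_three]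
  field_simp
  ring

/-- composition of a real valued function with a real function -/
theorem real_comp {f : Cn 3 → ℝ} {h : ℝ → ℝ} {h' : ℝ} (hf : HW (fun q => (f q : ℂ)) a b p)
    (hh : HasDerivAt h h' (f p)) :
    HW (fun q => ((h (f q) : ℝ) : ℂ)) (fun i => h' * a i) (fun i => h' * b i) p := by
  have h1 : HasFDerivAt (fun q => ((f q : ℂ)).re) (Complex.reCLM.comp (Wl a b)) p :=
    Complex.reCLM.hasFDerivAt.comp p hf
  have h2 : HasFDerivAt f (Complex.reCLM.comp (Wl a b)) p := h1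
  have h3 : HasFDerivAt (fun q => (f q : ℂ)) (Complex.ofRealCLM.comp
      (Complex.reCLM.comp (Wl a b))) p := Complex.ofRealCLM.hasFDerivAt.comp p h2
  have h4 : Wl a b = Complex.ofRealCLM.comp (Complex.reCLM.comp (Wl a b)) := hf.unique h3
  have h5 := hh.comp_hasFDerivAt p h2
  have h6 : HasFDerivAt (fun q => ((h (f q) : ℝ) : ℂ)) (Complex.ofRealCLM.comp
      (h' • (Complex.reCLM.comp (Wl a b)))) p := Complex.ofRealCLM.hasFDerivAt.comp p h5
  refine h6.congr_fderiv ?_
  ext v
  have h7 : (Wl a b) v = (((Wl a b v).re : ℝ) : ℂ) := by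
    conv_lhs => rw [h4]
    rfl
  have h8 : Wl (fun i => (h' : ℂ) * a i) (fun i => (h' : ℂ) * b i) v = (h' : ℂ) * Wl a b v := by
    simp only [Wl_apply, Fin.sum_univ_three]
    ring
  rw [h8, h7]
  simp

end HW

end Pool.Agent.TH609.KG
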